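import Pool.Agent.Run7.h343.PV.Iface3
import Pool.Agent.Helper112.MultLS
import Pool.Agent.Y766.R3.TE

/-!
# Project PV: the final assembly
-/

set_option autoImplicit false

namespace Pool.Agent.Run7.h343.PV

open Finset Complex

/-- Cauchy-Schwarz -/
lemma cs_count {ι : Type} [Fintype ι] (e M L : ι → ℂ) {P τ S1 S2 : ℝ} (hP : 0 < P) (hτ0 : 0 ≤ τ)
    (hS1 : 0 < S1) (hS2 : 0 ≤ S2)
    (he : ∀ i, ‖e i‖ ≤ 2) (hF : P / 4 ≤ ‖∑ i, e i * (M i * L i)‖)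
    (hS : ∑ i, ‖e i * (M i * L i)‖ ^ 2 ≤ S1 * P) (hM : ∑ i, ‖M i‖ ^ 2 ≤ P * S2)
    (hcard : (Fintype.card ι : ℝ) ≤ P) (hτ : τ * Real.sqrt S2 ≤ 1 / 16) :
    P / (64 * S1) ≤ ((univ.filter (fun i => τ ≤ ‖L i‖)).card : ℝ) := by
  classical
  set G := univ.filter (fun i => τ ≤ ‖L i‖) with hG
  set B := univ.filter (fun i => ¬ τ ≤ ‖L i‖) with hB
  have h1 : ‖∑ i, e i * (M i * L i)‖ ≤ ∑ i ∈ G, ‖e i * (M i * L i)‖ + ∑ i ∈ B, ‖e i * (M i * L i)‖ := by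
    refine (norm_sum_le _ _).trans (le_of_eq ?_)
    rw [hG, hB, sum_filter_add_sum_filter_not]
  have hMs : ∑ i, ‖M i‖ ≤ P * Real.sqrt S2 := by
    have h2 : (∑ i, ‖M i‖) ^ 2 ≤ (P * Real.sqrt S2) ^ 2 := by
      refine (sq_sum_le_card_mul_sum_sq).trans ?_
      rw [mul_pow, Real.sq_sqrt hS2, card_univ]
      calc (Fintype.card ι : ℝ) * ∑ i, ‖M i‖ ^ 2 ≤ P * (P * S2) := by gcongr
        _ = P ^ 2 * S2 := by ring
    exact (pow_le_pow_iff_left₀ (sum_nonneg fun i _ => norm_nonneg _) (by positivity) two_ne_zero).1 h2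
  have h2 : ∑ i ∈ B, ‖e i * (M i * L i)‖ ≤ P / 8 := by
    calc ∑ i ∈ B, ‖e i * (M i * L i)‖ ≤ ∑ i ∈ B, 2 * τ * ‖M i‖ := by
          refine sum_le_sum fun i hi => ?_
          rw [hB, mem_filter] at hi
          have h3 : ‖L i‖ ≤ τ := (not_le.1 hi.2).le
          rw [norm_mul, norm_mul]
          have h4 := he i
          calc ‖e i‖ * (‖M i‖ * ‖L i‖) ≤ 2 * (‖M i‖ * τ) := by gcongr
            _ = _ := by ring
      _ ≤ ∑ i, 2 * τ * ‖M i‖ :=
          sum_le_sum_of_subset_of_nonneg (filter_subset _ _) fun i _ _ => by positivity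
      _ = 2 * τ * ∑ i, ‖M i‖ := by rw [mul_sum]
      _ ≤ 2 * τ * (P * Real.sqrt S2) := by gcongr
      _ = 2 * P * (τ * Real.sqrt S2) := by ring
      _ ≤ 2 * P * (1 / 16) := by gcongr
      _ = _ := by ring
  have h3 : P / 8 ≤ ∑ i ∈ G, ‖e i * (M i * L i)‖ := by linarith
  have h4 : (∑ i ∈ G, ‖e i * (M i * L i)‖) ^ 2 ≤ (G.card : ℝ) * (S1 * P) := by
    refine (sq_sum_le_card_mul_sum_sq).trans ?_
    refine mul_le_mul_of_nonneg_left ?_ (Nat.cast_nonneg _)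
    exact (sum_le_sum_of_subset_of_nonneg (filter_subset _ _) fun i _ _ => by positivity).trans hS
  have h5 : (P / 8) ^ 2 ≤ (G.card : ℝ) * (S1 * P) := by
    refine le_trans ?_ h4
    gcongr
  rw [div_le_iff₀ (by positivity)]
  have h6 : P * P ≤ (G.card : ℝ) * (64 * S1) * P := by nlinarith
  exact le_of_mul_le_mul_right h6 hP

lemma UU_pos_eq {J p ν : ℕ} (hJ : 1 ≤ J) (hp : p.Prime) :
    (p : ℝ) ^ ν = Real.exp (20 * J * UU J p ν) := by
  have hp0 : (0 : ℝ) < p := by exact_mod_cast hp.pos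
  have hJ0 : (0 : ℝ) < J := by exact_mod_cast hJ
  unfold UU
  rw [mul_div_cancel₀ _ (by positivity), Real.exp_log (by positivity)]

lemma UU_ge {J p ν : ℕ} (hJ : 1 ≤ J) (hp : p.Prime) : (ν : ℝ) / (40 * J) ≤ UU J p ν := by
  have hJ0 : (0 : ℝ) < J := by exact_mod_cast hJ
  have hp2 : (2 : ℝ) ≤ p := by exact_mod_cast hp.two_le
  unfold UU
  rw [Real.log_pow, div_le_div_iff₀ (by positivity) (by positivity)]
  have h1 : (1 / 2 : ℝ) ≤ Real.log p := by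
    have := Real.log_two_gt_d9
    have h2 := Real.log_le_log (by norm_num) hp2
    linarith
  have h3 : (0 : ℝ) ≤ ν := Nat.cast_nonneg _
  have h4 : (ν : ℝ) * (1 / 2) ≤ ν * Real.log p := mul_le_mul_of_nonneg_left h1 h3
  nlinarith

lemma PL_le {Y : ℝ} (hY : 1 ≤ Y) {l : ℕ} (hl : 1 ≤ l) : 0 ≤ PL Y l ∧ PL Y l ≤ 1 := by
  unfold PL
  refine ⟨le_max_left _ _, max_le zero_le_one ?_⟩
  have : 0 ≤ Real.log l / Real.log Y :=
    div_nonneg (Real.log_nonneg (by exact_mod_cast hl)) (Real.log_nonneg hY)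
  linarith

lemma mu_le (n : ℕ) : |mu n| ≤ 1 := by
  unfold mu
  have := ArithmeticFunction.abs_moebius_le_one (n := n)
  exact_mod_cast this

lemma Mol_le {Y : ℝ} (hY : 1 ≤ Y) {q : ℕ} (ψ : DirichletCharacter ℂ q) : ‖Mol Y ψ‖ ≤ Y := by
  unfold Mol
  calc ‖∑ l ∈ Icc 1 ⌊Y⌋₊, ((mu l * PL Y l / Real.sqrt l : ℝ) : ℂ) * ψ (l : ZMod q)‖
      ≤ ∑ l ∈ Icc 1 ⌊Y⌋₊, (1 : ℝ) := by
        refine (norm_sum_le _ _).trans (sum_le_sum fun l hl => ?_)
        rw [mem_Icc] at hl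
        obtain ⟨p0, p1⟩ := PL_le hY hl.1
        have h1 : (1 : ℝ) ≤ Real.sqrt l := by
          rw [← Real.sqrt_one]; exact Real.sqrt_le_sqrt (by exact_mod_cast hl.1)
        rw [norm_mul, Complex.norm_real, Real.norm_eq_abs, abs_div, abs_mul, abs_of_nonneg p0,
          abs_of_nonneg (by positivity : (0 : ℝ) ≤ Real.sqrt l)]
        have h2 : |mu l| * PL Y l / Real.sqrt l ≤ 1 := by
          rw [div_le_one (by positivity)]
          calc |mu l| * PL Y l ≤ 1 * 1 := mul_le_mul (mu_le l) p1 p0 zero_le_one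
            _ ≤ _ := by rw [one_mul]; exact h1
        calc _ ≤ 1 * 1 := mul_le_mul h2 (DirichletCharacter.norm_le_one _ _) (norm_nonneg _) zero_le_one
          _ = 1 := one_mul 1
    _ = (⌊Y⌋₊ : ℝ) := by rw [sum_const, Nat.card_Icc, nsmul_eq_mul]; simp
    _ ≤ Y := Nat.floor_le (by linarith)

/-- the numerical facts -/
lemma num {J p ν m : ℕ} {C2 CW : ℝ} (hC2 : 0 < C2) (hCW : 0 < CW) (hJ : 12 ≤ J) (hp : p.Prime)
    (hU : 1024 + 128 * C2 + 256 * CW ≤ UU J p ν) (hP2 : 2 * m ≤ ν)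
    (hP : ((p : ℝ) ^ ν) ^ (1 / 3 : ℝ) ≤ (p : ℝ) ^ m) :
    8 * YY J p ν * (Real.sqrt (YY J p ν / (p : ℝ) ^ m) + Real.sqrt (NN J p ν) / (p : ℝ) ^ m) ≤ 1 / 16 ∧
    C2 * (1 / Real.log (YY J p ν) + 1 / UU J p ν) + C2 * YY J p ν ^ 2 *
      (1 / Real.sqrt ((p : ℝ) ^ m) + Real.sqrt (NN J p ν) / (p : ℝ) ^ m) ≤ 1 / 16 ∧
    YY J p ν * (2 * (CW / (p : ℝ) ^ ν)) ≤ 1 / 64 ∧
    2 * (Real.exp (2 * 0 + UU J p ν) / (p : ℝ) ^ ν) ^ (1 / 4 : ℝ) ≤ 1 / 4 ∧
    YY J p ν < (p : ℝ) ^ m ∧ p ^ m ≤ NN J p ν ∧ 2 ≤ YY J p ν ∧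
    1 + UU J p ν ≤ Real.log ((p : ℝ) ^ ν) := by
  have hJ1 : 1 ≤ J := by omega
  have hq := UU_pos_eq (ν := ν) hJ1 hp
  set U := UU J p ν with hUd
  have hp0 : (0 : ℝ) < p := by exact_mod_cast hp.pos
  have hp1 : (1 : ℝ) < p := by exact_mod_cast hp.one_lt
  have hJr : (12 : ℝ) ≤ J := by exact_mod_cast hJ
  have hU0 : 1024 ≤ U := by nlinarith
  have hUp : 0 < U := by linarith
  have hJU : 12 * U ≤ J * U := by nlinarith
  have hYd : YY J p ν = Real.exp U := rfl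
  have hlogY : Real.log (YY J p ν) = U := by rw [hYd, Real.log_exp]
  -- `P`
  have hPge : Real.exp (20 / 3 * (J * U)) ≤ (p : ℝ) ^ m := by
    refine le_trans (le_of_eq ?_) hP
    rw [hq, ← Real.exp_mul]
    congr 1; ring
  have hPle : (p : ℝ) ^ m ≤ Real.exp (10 * J * U) := by
    have h1 : ((p : ℝ) ^ m) ^ 2 ≤ Real.exp (10 * J * U) ^ 2 := by
      rw [← pow_mul, ← Real.exp_nat_mul]
      calc (p : ℝ) ^ (m * 2) ≤ (p : ℝ) ^ ν := pow_le_pow_right₀ hp1.le (by omega)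
        _ = _ := by rw [hq]; congr 1; push_cast; ring
    exact (pow_le_pow_iff_left₀ (by positivity) (by positivity) two_ne_zero).1 h1
  have hP0 : (0 : ℝ) < (p : ℝ) ^ m := by positivity
  -- `N`
  have hNge : Real.exp ((10 * J + 2) * U) ≤ (NN J p ν : ℝ) := by
    unfold NN; exact Nat.le_ceil _
  have hNle : (NN J p ν : ℝ) ≤ Real.exp ((10 * J + 3) * U) := by
    have h1 : (NN J p ν : ℝ) < Real.exp ((10 * J + 2) * U) + 1 := by
      unfold NN; exact Nat.ceil_lt_add_one (by positivity)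
    have h2 : (10 * (J : ℝ) + 3) * U = (10 * J + 2) * U + U := by ring
    rw [h2, Real.exp_add]
    have h3 : (2 : ℝ) ≤ Real.exp U := by
      have := Real.add_one_le_exp U; linarith
    have h4 : (1 : ℝ) ≤ Real.exp ((10 * J + 2) * U) := Real.one_le_exp (by positivity)
    nlinarith
  have hsN : Real.sqrt (NN J p ν) / (p : ℝ) ^ m ≤ Real.exp (-(3 * U)) := by
    have h1 : Real.sqrt (NN J p ν) ≤ Real.exp ((5 * J + 3 / 2) * U) := by
      rw [Real.sqrt_le_left (by positivity)]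
      refine hNle.trans (le_of_eq ?_)
      rw [← Real.exp_nat_mul]; congr 1; push_cast; ring
    calc Real.sqrt (NN J p ν) / (p : ℝ) ^ m ≤ Real.exp ((5 * J + 3 / 2) * U) / Real.exp (20 / 3 * (J * U)) := by
          gcongr
      _ = Real.exp ((5 * J + 3 / 2) * U - 20 / 3 * (J * U)) := by rw [Real.exp_sub]
      _ ≤ _ := Real.exp_le_exp.2 (by nlinarith)
  have hsP : 1 / Real.sqrt ((p : ℝ) ^ m) ≤ Real.exp (-(3 * U)) := by
    have h1 : Real.exp (3 * U) ≤ Real.sqrt ((p : ℝ) ^ m) := by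
      apply Real.le_sqrt_of_sq_le
      refine le_trans ?_ hPge
      rw [← Real.exp_nat_mul]
      exact Real.exp_le_exp.2 (by push_cast; nlinarith)
    rw [Real.exp_neg, ← one_div]
    exact one_div_le_one_div_of_le (Real.exp_pos _) h1
  have hsY : Real.sqrt (YY J p ν / (p : ℝ) ^ m) ≤ Real.exp (-(3 * U)) := by
    rw [Real.sqrt_le_left (by positivity), hYd, div_le_iff₀ hP0]
    calc Real.exp U ≤ Real.exp (-(3 * U)) ^ 2 * Real.exp (20 / 3 * (J * U)) := by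
          rw [← Real.exp_nat_mul, ← Real.exp_add]
          exact Real.exp_le_exp.2 (by push_cast; nlinarith)
      _ ≤ _ := by gcongr
  have heU : Real.exp (-U) ≤ 1 / U := by
    rw [Real.exp_neg, ← one_div]
    exact one_div_le_one_div_of_le hUp (by have := Real.add_one_le_exp U; linarith)
  have hinv : 0 < 1 / U := by positivity
  have hC2U : C2 * (1 / U) ≤ 1 / 128 := by
    rw [mul_one_div, div_le_div_iff₀ hUp (by norm_num)]; nlinarith
  have hCWU : CW * (1 / U) ≤ 1 / 256 := by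
    rw [mul_one_div, div_le_div_iff₀ hUp (by norm_num)]; nlinarith
  have h1U : 1 / U ≤ 1 / 1024 := one_div_le_one_div_of_le (by norm_num) hU0
  refine ⟨?_, ?_, ?_, ?_, ?_, ?_, ?_, ?_⟩
  · calc 8 * YY J p ν * (Real.sqrt (YY J p ν / (p : ℝ) ^ m) + Real.sqrt (NN J p ν) / (p : ℝ) ^ m)
        ≤ 8 * Real.exp U * (Real.exp (-(3 * U)) + Real.exp (-(3 * U))) := by rw [hYd]; rw [hYd] at hsY; gcongr
      _ = 16 * (Real.exp U * Real.exp (-(3 * U))) := by ring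
      _ = 16 * Real.exp (-(2 * U)) := by rw [← Real.exp_add]; congr 2; ring
      _ ≤ 16 * Real.exp (-U) := by gcongr; linarith
      _ ≤ 16 * (1 / 1024) := by gcongr; linarith
      _ ≤ _ := by norm_num
  · rw [hlogY]
    calc C2 * (1 / U + 1 / U) + C2 * YY J p ν ^ 2 *
          (1 / Real.sqrt ((p : ℝ) ^ m) + Real.sqrt (NN J p ν) / (p : ℝ) ^ m)
        ≤ C2 * (1 / U + 1 / U) + C2 * Real.exp U ^ 2 * (Real.exp (-(3 * U)) + Real.exp (-(3 * U))) := by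
          rw [hYd]; gcongr
      _ = 2 * (C2 * (1 / U)) + 2 * C2 * (Real.exp U ^ 2 * Real.exp (-(3 * U))) := by ring
      _ = 2 * (C2 * (1 / U)) + 2 * C2 * Real.exp (-U) := by
          rw [← Real.exp_nat_mul, ← Real.exp_add]; congr 3; push_cast; ring
      _ ≤ 2 * (C2 * (1 / U)) + 2 * C2 * (1 / U) := by gcongr
      _ = 4 * (C2 * (1 / U)) := by ring
      _ ≤ 4 * (1 / 128) := by gcongr
      _ ≤ _ := by norm_num
  · rw [hq, hYd]
    calc Real.exp U * (2 * (CW / Real.exp (20 * J * U))) =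
          2 * CW * (Real.exp U * (Real.exp (20 * J * U))⁻¹) := by ring
      _ = 2 * CW * Real.exp (U - 20 * J * U) := by rw [← Real.exp_neg, ← Real.exp_add]; congr 2
      _ ≤ 2 * CW * Real.exp (-U) := by gcongr; nlinarith
      _ ≤ 2 * CW * (1 / U) := by gcongr
      _ ≤ _ := by linarith
  · rw [hq, ← Real.exp_sub, ← Real.exp_mul]
    have : (2 * 0 + U - 20 * J * U) * (1 / 4 : ℝ) ≤ -U := by nlinarith
    calc 2 * Real.exp ((2 * 0 + U - 20 * J * U) * (1 / 4 : ℝ)) ≤ 2 * Real.exp (-U) := by gcongr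
      _ ≤ 2 * (1 / 1024) := by gcongr; linarith
      _ ≤ _ := by norm_num
  · rw [hYd]
    refine lt_of_lt_of_le (Real.exp_lt_exp.2 ?_) hPge
    nlinarith
  · have : ((p ^ m : ℕ) : ℝ) ≤ (NN J p ν : ℝ) := by
      push_cast
      refine hPle.trans (le_trans (Real.exp_le_exp.2 ?_) hNge)
      nlinarith
    exact_mod_cast this
  · rw [hYd]
    have := Real.add_one_le_exp U; linarith
  · rw [hq, Real.log_exp]; nlinarith

theorem fin_main (hSEC : S_SEC) (hWT : S_WT) (hFM1 : S_FM1) (hFM2 : S_FM2) (hMM : S_MM) (hAFE : S_AFE)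
    (hROOT : S_ROOT) {δ : ℝ} (hδ : 0 < δ) :
    ∃ c : ℝ, 0 < c ∧ ∃ ν₀ : ℕ, ∀ (p : ℕ) [Fact p.Prime], p ≠ 2 → ∀ (ν m : ℕ) (hmν : m ≤ ν), 2 * m ≤ ν →
      ν₀ ≤ ν → ((p : ℝ) ^ ν) ^ (1 / 3 + δ) ≤ (p : ℝ) ^ m →
      ∀ χ : DirichletCharacter ℂ (p ^ ν), χ.IsPrimitive →
      c * (p : ℝ) ^ m ≤ ((univ.filter fun θ : DirichletCharacter ℂ (p ^ m) =>
        1 / (16 * Real.sqrt (Real.log ((p : ℝ) ^ ν))) ≤
          ‖(χ * DirichletCharacter.changeLevel (pow_dvd_pow p hmν) θ).LFunction (1 / 2)‖).card : ℝ) := by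
  obtain ⟨J0, hJ⟩ := hSEC δ hδ
  set J := max J0 12 with hJd
  have hJ12 : 12 ≤ J := le_max_right _ _
  have hJ1 : 1 ≤ J := by omega
  obtain ⟨CS, hCS, νS, hS⟩ := hJ J (le_max_left _ _)
  obtain ⟨CW, hCW, hW⟩ := hWT J hJ1
  obtain ⟨C2, hC2, hF2⟩ := hFM2
  set U₀ : ℝ := 1024 + 128 * C2 + 256 * CW with hU₀
  refine ⟨1 / (64 * (32 * CS + 8)), by positivity, max (max νS 1) ⌈40 * J * U₀⌉₊, ?_⟩
  intro p hpf hp2 ν m hmν h2m hν hPq χ hχ
  have hp : p.Prime := hpf.out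
  have hp0 : (0 : ℝ) < p := by exact_mod_cast hp.pos
  have hp1 : (1 : ℝ) < p := by exact_mod_cast hp.one_lt
  have hνS : νS ≤ ν := (le_max_left _ _).trans ((le_max_left _ _).trans hν)
  have hν1 : 1 ≤ ν := (le_max_right _ _).trans ((le_max_left _ _).trans hν)
  have hνU : ⌈40 * J * U₀⌉₊ ≤ ν := (le_max_right _ _).trans hν
  have : NeZero (p ^ ν) := ⟨pow_ne_zero _ hp.ne_zero⟩
  have : NeZero (p ^ m) := ⟨pow_ne_zero _ hp.ne_zero⟩
  have hJr : (0 : ℝ) < J := by exact_mod_cast hJ1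
  have hU : U₀ ≤ UU J p ν := by
    refine le_trans ?_ (UU_ge (ν := ν) hJ1 hp)
    rw [le_div_iff₀ (by positivity)]
    have h1 : 40 * (J : ℝ) * U₀ ≤ ν := (Nat.le_ceil _).trans (by exact_mod_cast hνU)
    linarith
  have hq1 : (1 : ℝ) < (p : ℝ) ^ ν := one_lt_pow₀ hp1 (by omega)
  have hm1 : 1 ≤ m := by
    by_contra hcon
    have hm0 : m = 0 := by omega
    rw [hm0, pow_zero] at hPq
    exact absurd hPq (not_le.2 (Real.one_lt_rpow hq1 (by positivity)))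
  have hmν' : m < ν := by omega
  have hPq3 : ((p : ℝ) ^ ν) ^ (1 / 3 : ℝ) ≤ (p : ℝ) ^ m :=
    (Real.rpow_le_rpow_of_exponent_le hq1.le (by linarith)).trans hPq
  obtain ⟨n1, n2, n3, n4, n5, n6, n7, n8⟩ := num hC2 hCW hJ12 hp hU h2m hPq3
  have hUge : 1024 ≤ UU J p ν := by rw [hU₀] at hU; nlinarith
  have hU1 : 1 ≤ UU J p ν := by linarith
  obtain ⟨w, w1, w2, w3, w4, w5⟩ := hAFE (p ^ ν) (by
    calc 2 ≤ p := hp.two_le
      _ = p ^ 1 := (pow_one p).symm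
      _ ≤ p ^ ν := Nat.pow_le_pow_right hp.pos hν1) (UU J p ν) hU1
  simp only [Nat.cast_pow] at w3 w4
  obtain ⟨b, hb, hroot⟩ := hROOT p ν m hmν hp hp2 hm1 h2m χ hχ
  set κ : ℂ := gaussSum χ ZMod.stdAddChar / ((p ^ ν : ℕ) : ℂ) ^ (1 / 2 : ℂ) with hκ
  have hκ1 : ‖κ‖ = 1 := by
    have h1 := Pool.Agent.Helper112.MLS.norm_gauss (p ^ ν) hχ
    have h0 : (0 : ℝ) < ((p ^ ν : ℕ) : ℝ) := by push_cast; positivity
    have h3 : ‖((p ^ ν : ℕ) : ℂ) ^ (1 / 2 : ℂ)‖ = Real.sqrt ((p ^ ν : ℕ) : ℝ) := by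
      rw [Complex.norm_natCast_cpow_of_pos (NeZero.pos (p ^ ν))]
      rw [Real.sqrt_eq_rpow]
      congr 1
      norm_num
    rw [hκ, norm_div, h3, ← h1, Real.sqrt_sq (norm_nonneg _)]
    apply div_self
    intro h4
    rw [h4] at h1
    rw [← h1] at h0
    norm_num at h0
  set Y := YY J p ν with hY
  set N := NN J p ν with hN
  set R : ℝ := 2 * (CW / (p : ℝ) ^ ν) with hR
  have hY1 : 1 ≤ Y := by linarith
  set A : DirichletCharacter ℂ (p ^ m) → ℂ := fun θ => AA N w (tw hmν χ θ) with hA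
  set M : DirichletCharacter ℂ (p ^ m) → ℂ := fun θ => Mol Y (tw hmν χ θ) with hM
  set L : DirichletCharacter ℂ (p ^ m) → ℂ := fun θ => (tw hmν χ θ).LFunction (1 / 2) with hL
  set e : DirichletCharacter ℂ (p ^ m) → ℂ := fun θ => 1 + tw hmν χ θ (-1) with he
  have key : ∀ θ : DirichletCharacter ℂ (p ^ m), ∃ r : ℂ, ‖r‖ ≤ R ∧
      e θ * L θ = e θ * (A θ + κ * (θ (b : ZMod (p ^ m)) * (starRingEnd ℂ) (A θ)) + r) := by
    intro θ
    rcases (tw hmν χ θ).even_or_odd with hev | hodd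
    · have hprim : (tw hmν χ θ).IsPrimitive := Pool.Agent.Y766.R3.prim_mul hp hmν' hχ θ
      have h1 := w5 (tw hmν χ θ) hprim hev
      have h3 : (tw hmν χ θ).rootNumber = θ (b : ZMod (p ^ m)) * κ := by
        unfold DirichletCharacter.rootNumber
        rw [if_pos hev, pow_zero, div_one, hκ]
        have := hroot θ
        unfold tw
        rw [this, mul_div_assoc]
      have hW1 := hW p ν w (fun n => tw hmν χ θ (n : ZMod (p ^ ν))) hp hU1 w1 w4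
        (fun n => DirichletCharacter.norm_le_one _ _)
      have hW2 := hW p ν w (fun n => (starRingEnd ℂ) (tw hmν χ θ (n : ZMod (p ^ ν)))) hp hU1 w1 w4
        (fun n => by rw [RCLike.norm_conj]; exact DirichletCharacter.norm_le_one _ _)
      set S1 := ∑' n : ℕ, tw hmν χ θ (n : ZMod (p ^ ν)) * ((w (Real.log n) / Real.sqrt n : ℝ) : ℂ) with hS1
      set S2 := ∑' n : ℕ, (starRingEnd ℂ) (tw hmν χ θ (n : ZMod (p ^ ν))) *
        ((w (Real.log n) / Real.sqrt n : ℝ) : ℂ) with hS2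
      have hconj : (starRingEnd ℂ) (A θ) = ∑ n ∈ Icc 1 N, ((w (Real.log n) / Real.sqrt n : ℝ) : ℂ) *
          (starRingEnd ℂ) (tw hmν χ θ (n : ZMod (p ^ ν))) := by
        simp only [hA, AA, map_sum, map_mul, Complex.conj_ofReal]
      have hW1' : ‖S1 - A θ‖ ≤ CW / (p : ℝ) ^ ν := hW1
      have hW2' : ‖S2 - (starRingEnd ℂ) (A θ)‖ ≤ CW / (p : ℝ) ^ ν := by rw [hconj]; exact hW2
      refine ⟨(S1 - A θ) + θ (b : ZMod (p ^ m)) * κ * (S2 - (starRingEnd ℂ) (A θ)), ?_, ?_⟩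
      · have hθ : ‖θ (b : ZMod (p ^ m))‖ ≤ 1 := DirichletCharacter.norm_le_one _ _
        have hc0 : 0 ≤ CW / (p : ℝ) ^ ν := by positivity
        calc _ ≤ ‖S1 - A θ‖ + ‖θ (b : ZMod (p ^ m)) * κ * (S2 - (starRingEnd ℂ) (A θ))‖ := norm_add_le _ _
          _ ≤ CW / (p : ℝ) ^ ν + 1 * 1 * (CW / (p : ℝ) ^ ν) := by
              rw [norm_mul, norm_mul, hκ1]
              gcongr
          _ = R := by rw [hR]; ring
      · have : L θ = S1 + (tw hmν χ θ).rootNumber * S2 := h1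
        rw [this, h3]
        ring
    · refine ⟨0, by rw [norm_zero]; positivity, ?_⟩
      have h0 : e θ = 0 := by
        simp only [he]
        have h1 : tw hmν χ θ (-1) = -1 := hodd
        rw [h1]; ring
      rw [h0, zero_mul, zero_mul]
  choose r hr1 hr2 using key
  have hφle : ((Nat.totient (p ^ m) : ℕ) : ℝ) ≤ (p : ℝ) ^ m := by
    have := Nat.totient_le (p ^ m)
    have h1 : ((Nat.totient (p ^ m) : ℕ) : ℝ) ≤ ((p ^ m : ℕ) : ℝ) := by exact_mod_cast this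
    rwa [Nat.cast_pow] at h1
  have hφge : (p : ℝ) ^ m / 2 ≤ ((Nat.totient (p ^ m) : ℕ) : ℝ) := by
    rw [Nat.totient_prime_pow hp (by omega)]
    obtain ⟨m', rfl⟩ : ∃ m', m = m' + 1 := ⟨m - 1, by omega⟩
    rw [Nat.add_sub_cancel]
    have h2 : ((p - 1 : ℕ) : ℝ) = (p : ℝ) - 1 := by
      rw [Nat.cast_sub hp.one_lt.le, Nat.cast_one]
    push_cast
    rw [h2, pow_succ]
    have h3 : (2 : ℝ) ≤ p := by exact_mod_cast hp.two_le
    have h4 : (0 : ℝ) < (p : ℝ) ^ m' := by positivity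
    nlinarith
  have hcard : (Fintype.card (DirichletCharacter ℂ (p ^ m)) : ℝ) ≤ (p : ℝ) ^ m := by
    rw [← Nat.card_eq_fintype_card, DirichletCharacter.card_eq_totient_of_hasEnoughRootsOfUnity]
    exact hφle
  set φ : ℝ := ((Nat.totient (p ^ m) : ℕ) : ℝ) with hφ
  have hφ0 : 0 ≤ φ := Nat.cast_nonneg _
  have hen : ∀ θ, ‖e θ‖ ≤ 2 := by
    intro θ
    simp only [he]
    calc ‖(1 : ℂ) + tw hmν χ θ (-1)‖ ≤ ‖(1 : ℂ)‖ + ‖tw hmν χ θ (-1)‖ := norm_add_le _ _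
      _ ≤ 1 + 1 := by
          rw [norm_one]
          have := DirichletCharacter.norm_le_one (tw hmν χ θ) (-1)
          linarith
      _ = 2 := by norm_num
  have hMn : ∀ θ, ‖M θ‖ ≤ Y := fun θ => Mol_le hY1 _
  have hR0 : 0 ≤ R := by positivity
  have hP0 : (0 : ℝ) < (p : ℝ) ^ m := by positivity
  -- the first moment
  have hsplit : ∑ θ, e θ * (M θ * L θ) = ∑ θ, e θ * (M θ * A θ) +
      κ * ∑ θ : DirichletCharacter ℂ (p ^ m), e θ * (θ (b : ZMod (p ^ m)) * (M θ * (starRingEnd ℂ) (A θ))) +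
      ∑ θ, e θ * (M θ * r θ) := by
    rw [mul_sum, ← sum_add_distrib, ← sum_add_distrib]
    refine sum_congr rfl fun θ _ => ?_
    calc e θ * (M θ * L θ) = M θ * (e θ * L θ) := by ring
      _ = _ := by rw [hr2 θ]; ring
  have f1 := hFM1 p ν m N hmν χ Y w hp hp2 hm1 hY1 (by
    have := n6; exact (Nat.one_le_pow _ _ hp.pos).trans this) (fun t => by
      rw [abs_of_nonneg (w1 t).1]; exact (w1 t).2)
  have f2 := hF2 p ν m N hmν χ Y (UU J p ν) b w hp hm1 n6 hb n7 hU1 (fun t => by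
      rw [abs_of_nonneg (w1 t).1]; exact (w1 t).2) w2
  have f3 : ‖∑ θ, e θ * (M θ * r θ)‖ ≤ (p : ℝ) ^ m * (1 / 32) := by
    calc _ ≤ ∑ θ : DirichletCharacter ℂ (p ^ m), 2 * (Y * R) := by
          refine (norm_sum_le _ _).trans (sum_le_sum fun θ _ => ?_)
          rw [norm_mul, norm_mul]
          exact mul_le_mul (hen θ) (mul_le_mul (hMn θ) (hr1 θ) (norm_nonneg _) (by linarith))
            (by positivity) (by norm_num)
      _ = (Fintype.card (DirichletCharacter ℂ (p ^ m)) : ℝ) * (2 * (Y * R)) := by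
          rw [sum_const, card_univ, nsmul_eq_mul]
      _ ≤ (p : ℝ) ^ m * (2 * (1 / 64)) := by gcongr
      _ = _ := by ring
  have hw0 : 3 / 4 ≤ w 0 := by
    have := w3 0
    linarith
  have hF : (p : ℝ) ^ m / 4 ≤ ‖∑ θ, e θ * (M θ * L θ)‖ := by
    set T1 := ∑ θ, e θ * (M θ * A θ) with hT1
    set T2 := ∑ θ : DirichletCharacter ℂ (p ^ m), e θ * (θ (b : ZMod (p ^ m)) * (M θ * (starRingEnd ℂ) (A θ)))
      with hT2
    set T3 := ∑ θ, e θ * (M θ * r θ) with hT3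
    rw [hsplit]
    have g1 : ‖T1 - ((Nat.totient (p ^ m) : ℕ) : ℂ) * ((w 0 : ℝ) : ℂ)‖ ≤ φ * (1 / 16) :=
      f1.trans (mul_le_mul_of_nonneg_left n1 hφ0)
    have g2 : ‖T2‖ ≤ φ * (1 / 16) := f2.trans (mul_le_mul_of_nonneg_left n2 hφ0)
    have g4 : ‖((Nat.totient (p ^ m) : ℕ) : ℂ) * ((w 0 : ℝ) : ℂ)‖ = φ * w 0 := by
      rw [norm_mul, Complex.norm_natCast, Complex.norm_real, Real.norm_eq_abs, abs_of_nonneg (w1 0).1]
    have g5 : ((Nat.totient (p ^ m) : ℕ) : ℂ) * ((w 0 : ℝ) : ℂ) = (T1 + κ * T2 + T3) -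
        (T1 - ((Nat.totient (p ^ m) : ℕ) : ℂ) * ((w 0 : ℝ) : ℂ)) - κ * T2 - T3 := by ring
    have g6 : φ * w 0 ≤ ‖T1 + κ * T2 + T3‖ + φ * (1 / 16) + φ * (1 / 16) + (p : ℝ) ^ m * (1 / 32) := by
      rw [← g4]
      conv_lhs => rw [g5]
      refine (norm_sub_le _ _).trans (add_le_add ?_ f3)
      refine (norm_sub_le _ _).trans (add_le_add ?_ ?_)
      · exact (norm_sub_le _ _).trans (add_le_add le_rfl g1)
      · rw [norm_mul, hκ1, one_mul]; exact g2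
    have g7 : φ * (3 / 4) ≤ φ * w 0 := mul_le_mul_of_nonneg_left hw0 hφ0
    linarith
  -- the second moment
  have s1 := hS p ν m hmν χ w hp hp2 hνS h2m hPq hχ w1 w2 w3 w4
  have hSS : ∑ θ, ‖e θ * (M θ * L θ)‖ ^ 2 ≤ (32 * CS + 8) * (p : ℝ) ^ m := by
    have hone : ∀ θ, ‖e θ * (M θ * L θ)‖ ^ 2 ≤ 32 * ‖M θ * A θ‖ ^ 2 + 8 := by
      intro θ
      have h1 : e θ * (M θ * L θ) = e θ * (M θ * A θ + κ * (θ (b : ZMod (p ^ m)) *
          (M θ * (starRingEnd ℂ) (A θ))) + M θ * r θ) := by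
        calc e θ * (M θ * L θ) = M θ * (e θ * L θ) := by ring
          _ = _ := by rw [hr2 θ]; ring
      have hθ : ‖θ (b : ZMod (p ^ m))‖ ≤ 1 := DirichletCharacter.norm_le_one _ _
      have h2 : ‖e θ * (M θ * L θ)‖ ≤ 2 * (2 * ‖M θ * A θ‖ + 1) := by
        rw [h1, norm_mul]
        refine mul_le_mul (hen θ) ?_ (norm_nonneg _) (by norm_num)
        refine (norm_add_le _ _).trans ?_
        have h3 : ‖M θ * r θ‖ ≤ 1 := by
          rw [norm_mul]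
          calc ‖M θ‖ * ‖r θ‖ ≤ Y * R := mul_le_mul (hMn θ) (hr1 θ) (norm_nonneg _) (by linarith)
            _ ≤ 1 / 64 := n3
            _ ≤ 1 := by norm_num
        have h4 : ‖M θ * A θ + κ * (θ (b : ZMod (p ^ m)) * (M θ * (starRingEnd ℂ) (A θ)))‖ ≤
            2 * ‖M θ * A θ‖ := by
          refine (norm_add_le _ _).trans ?_
          rw [norm_mul κ, hκ1, one_mul, norm_mul (θ (b : ZMod (p ^ m))), norm_mul (M θ) ((starRingEnd ℂ) (A θ)),
            RCLike.norm_conj, ← norm_mul]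
          have : ‖θ (b : ZMod (p ^ m))‖ * ‖M θ * A θ‖ ≤ 1 * ‖M θ * A θ‖ := by gcongr
          linarith
        linarith
      calc ‖e θ * (M θ * L θ)‖ ^ 2 ≤ (2 * (2 * ‖M θ * A θ‖ + 1)) ^ 2 := by gcongr
        _ ≤ _ := by nlinarith [sq_nonneg (2 * ‖M θ * A θ‖ - 1)]
    calc ∑ θ, ‖e θ * (M θ * L θ)‖ ^ 2 ≤ ∑ θ, (32 * ‖M θ * A θ‖ ^ 2 + 8) := sum_le_sum fun θ _ => hone θ
      _ = 32 * ∑ θ, ‖M θ * A θ‖ ^ 2 + (Fintype.card (DirichletCharacter ℂ (p ^ m)) : ℝ) * 8 := by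
          rw [sum_add_distrib, ← mul_sum, sum_const, card_univ, nsmul_eq_mul]
      _ ≤ 32 * (CS * (p : ℝ) ^ m) + (p : ℝ) ^ m * 8 := by
          gcongr
      _ = _ := by ring
  have mm := hMM p ν m hmν χ Y hp hm1 hY1 n5
  have hlogY : Real.log Y = UU J p ν := by rw [hY]; unfold YY; rw [Real.log_exp]
  rw [hlogY] at mm
  have hlogq : 0 < Real.log ((p : ℝ) ^ ν) := Real.log_pos hq1
  have hτ : 1 / (16 * Real.sqrt (Real.log ((p : ℝ) ^ ν))) * Real.sqrt (1 + UU J p ν) ≤ 1 / 16 := by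
    have h1 : Real.sqrt (1 + UU J p ν) ≤ Real.sqrt (Real.log ((p : ℝ) ^ ν)) := Real.sqrt_le_sqrt n8
    have h2 : 0 < Real.sqrt (Real.log ((p : ℝ) ^ ν)) := Real.sqrt_pos.2 hlogq
    calc _ ≤ 1 / (16 * Real.sqrt (Real.log ((p : ℝ) ^ ν))) * Real.sqrt (Real.log ((p : ℝ) ^ ν)) := by gcongr
      _ = 1 / 16 := by field_simp
  have hfin := cs_count e M L hP0 (by positivity) (by positivity) (by linarith) hen hF hSS mm hcard hτ
  refine le_trans (le_of_eq ?_) hfin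
  field_simp

end Pool.Agent.Run7.h343.PV
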