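import Pool.Agent.Run7.h163.PV.SM
import Pool.Agent.Run7.h343.PV.SMH1
import Pool.Agent.Run7.h343.PV.SMB1
import Pool.Agent.Run7.h343.PV.Fin
import Pool.Agent.Run7.h68.PV.AFE0
import Pool.Agent.Run7.h136.PV.DUAL
import Pool.Agent.Run7.h205.PV.MD
import Pool.Agent.Run7.h216.PV.FM1
import Pool.Agent.Run7.h220.PV.FM2
import Pool.Agent.Run7.h220.PV.WT
import Pool.Agent.Run7.h228.PV.MM
import Pool.Agent.Run7.h300.PV.OFF2
import Pool.Agent.Run7.h462.PV.OFF1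
import Pool.Agent.Run7.h559.PV.ROOT
import Pool.Agent.Run7.h650.PV.BOT
import Pool.Agent.Run7.h781.PV.QF
import Pool.Agent.Run7.h950.PV.PHI2
import Pool.Agent.Run7.h950.PV.TAIL
import Pool.Agent.Run7.h973.PV.SEC

/-!
# Project PV: all the pieces together
-/

set_option autoImplicit false

namespace Pool.Agent.Run7.h343.PV

theorem a_LIP : S_LIP := Pool.Agent.Run7.h205.PV.t_LIP Pool.Agent.Run7.h205.PV.t_MD

theorem a_QF : S_QF := Pool.Agent.Run7.h781.PV.t_QF a_LIP Pool.Agent.Run7.h950.PV.t_PHI2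

theorem a_DIAG : S_DIAG := Pool.Agent.Run7.h136.PV.t_DIAG a_QF

theorem a_DUAL : S_DUAL := Pool.Agent.Run7.h136.PV.t_DUAL a_LIP Pool.Agent.Run7.h950.PV.t_TAIL

theorem a_SEC : S_SEC := Pool.Agent.Run7.h973.PV.t_SEC
  (SMH1.t_SMH Pool.Agent.Run7.h163.PV.t_SM1 (Pool.Agent.Run7.h300.PV.t_OFF2 Pool.Agent.Run7.h462.PV.t_OFF1) a_DIAG)
  (SMB1.t_SMB Pool.Agent.Run7.h163.PV.t_SM1 a_DIAG (t_BOT a_QF))

theorem a_AFE : S_AFE := Pool.Agent.Run7.h68.PV.t_AFE Pool.Agent.Run7.h68.PV.t_AFE0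

end Pool.Agent.Run7.h343.PV
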