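import Pool.Agent.Run7.h343.PV.Sub

/-!
# Project PV: all `m < ν`
-/

set_option autoImplicit false

namespace Pool.Agent.Run7.h343.PV

open Finset Complex

/-- the set of the good characters -/
def GS {p ν m : ℕ} [NeZero (p ^ ν)] (hmν : m ≤ ν) (χ : DirichletCharacter ℂ (p ^ ν)) (H : Subgroup (DirichletCharacter ℂ (p ^ m)))
    (c : ℝ) : Set (DirichletCharacter ℂ (p ^ m)) :=
  {θ : DirichletCharacter ℂ (p ^ m) | θ ∈ H ∧ c / Real.sqrt (Real.log ((p : ℝ) ^ ν)) ≤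
    ‖(χ * DirichletCharacter.changeLevel (pow_dvd_pow p hmν) θ).LFunction (1 / 2)‖}

lemma GS_mono {p ν m : ℕ} [NeZero (p ^ ν)] [NeZero (p ^ m)] (hmν : m ≤ ν) (χ : DirichletCharacter ℂ (p ^ ν))
    (H : Subgroup (DirichletCharacter ℂ (p ^ m))) {c c' : ℝ} (h : c' ≤ c) :
    (GS hmν χ H c).ncard ≤ (GS hmν χ H c').ncard := by
  apply Set.ncard_le_ncard _ (Set.toFinite _)
  rintro θ ⟨h1, h2⟩
  refine ⟨h1, le_trans ?_ h2⟩
  gcongr

lemma sub_le {δ : ℝ} (hδ : 0 < δ) (d : ℕ) :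
    ∃ c : ℝ, 0 < c ∧ ∃ ν₀ : ℕ, ∀ (p : ℕ) [Fact p.Prime], p ≠ 2 → ∀ (ν m : ℕ) (hmν : m ≤ ν), 2 * m ≤ ν →
      ν₀ ≤ ν → ((p : ℝ) ^ ν) ^ (1 / 3 + δ) ≤ (p : ℝ) ^ m →
      ∀ χ : DirichletCharacter ℂ (p ^ ν), χ.IsPrimitive →
      ∀ H : Subgroup (DirichletCharacter ℂ (p ^ m)), H.index ≤ d →
        (∃ θ₀ ∈ H, (χ * DirichletCharacter.changeLevel (pow_dvd_pow p hmν) θ₀).Even) →
        c * (p : ℝ) ^ m ≤ ((GS hmν χ H c).ncard : ℝ) := by
  induction d with
  | zero =>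
    refine ⟨1, one_pos, 0, fun p _ _ ν m hmν _ _ _ χ _ H hH _ => ?_⟩
    exfalso
    have : NeZero (p ^ m) := ⟨pow_ne_zero _ (Fact.out : p.Prime).ne_zero⟩
    exact Subgroup.index_ne_zero_of_finite (H := H) (by omega)
  | succ d ih =>
    obtain ⟨c1, hc1, ν1, h1⟩ := ih
    obtain ⟨c2, hc2, ν2, h2⟩ := sub_main hδ (d := d + 1) (by omega)
    refine ⟨min c1 c2, lt_min hc1 hc2, max ν1 ν2, fun p hpf hp2 ν m hmν h2m hν hPq χ hχ H hH hev => ?_⟩
    have hp0 : (0 : ℝ) < (p : ℝ) ^ m := by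
      have : (0 : ℝ) < p := by exact_mod_cast (Fact.out : p.Prime).pos
      positivity
    have : NeZero (p ^ m) := ⟨pow_ne_zero _ (Fact.out : p.Prime).ne_zero⟩
    rcases Nat.lt_or_ge d H.index with hlt | hge
    · have h3 := h2 p hp2 ν m hmν h2m ((le_max_right _ _).trans hν) hPq χ hχ H (by omega) hev
      have h4 : ((GS hmν χ H c2).ncard : ℝ) ≤ ((GS hmν χ H (min c1 c2)).ncard : ℝ) := by
        exact_mod_cast GS_mono hmν χ H (min_le_right _ _)
      refine le_trans ?_ (h3.trans h4)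
      exact mul_le_mul_of_nonneg_right (min_le_right _ _) hp0.le
    · have h3 := h1 p hp2 ν m hmν h2m ((le_max_left _ _).trans hν) hPq χ hχ H hge hev
      have h4 : ((GS hmν χ H c1).ncard : ℝ) ≤ ((GS hmν χ H (min c1 c2)).ncard : ℝ) := by
        exact_mod_cast GS_mono hmν χ H (min_le_left _ _)
      refine le_trans ?_ (h3.trans h4)
      exact mul_le_mul_of_nonneg_right (min_le_left _ _) hp0.le

theorem ext_main {δ : ℝ} (hδ : 0 < δ) {d : ℕ} (hd : 1 ≤ d) :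
    ∃ c : ℝ, 0 < c ∧ ∃ ν₀ : ℕ, ∀ (p : ℕ) [Fact p.Prime], p ≠ 2 → ∀ (ν m : ℕ) (hmν : m < ν),
      ν₀ ≤ ν → ((p : ℝ) ^ ν) ^ (1 / 3 + δ) ≤ (p : ℝ) ^ m →
      ∀ χ : DirichletCharacter ℂ (p ^ ν), χ.IsPrimitive →
      ∀ H : Subgroup (DirichletCharacter ℂ (p ^ m)), H.index = d →
        (∃ θ₀ ∈ H, (χ * DirichletCharacter.changeLevel (pow_dvd_pow p hmν.le) θ₀).Even) →
        c * (p : ℝ) ^ m ≤ ((GS hmν.le χ H c).ncard : ℝ) := by
  obtain ⟨c1, hc1, ν1, h1⟩ := sub_main hδ hd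
  obtain ⟨c2, hc2, ν2, h2⟩ := sub_le (δ := 1 / 12) (by norm_num) d
  set D := 2 * d with hDd
  have hD : 1 ≤ D := by omega
  have hDr : (1 : ℝ) ≤ D := by exact_mod_cast hD
  set c3 : ℝ := c2 / (2 * D) with hc3
  have hc30 : 0 < c3 := by positivity
  have hc32 : c3 ≤ c2 := by
    rw [hc3, div_le_iff₀ (by positivity)]
    nlinarith
  refine ⟨min c1 c3, lt_min hc1 hc30, max (max ν1 ν2) 6, ?_⟩
  intro p hpf hp2 ν m hmν hν hPq χ hχ H hH hev
  have hp : p.Prime := hpf.out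
  have hp0 : (0 : ℝ) < p := by exact_mod_cast hp.pos
  have hp1 : (1 : ℝ) < p := by exact_mod_cast hp.one_lt
  have hP0 : (0 : ℝ) < (p : ℝ) ^ m := by positivity
  have : NeZero (p ^ m) := ⟨pow_ne_zero _ hp.ne_zero⟩
  have hν1 : ν1 ≤ ν := (le_max_left _ _).trans ((le_max_left _ _).trans hν)
  have hν2 : ν2 ≤ ν := (le_max_right _ _).trans ((le_max_left _ _).trans hν)
  have hν6 : 6 ≤ ν := (le_max_right _ _).trans hν
  rcases le_or_gt (2 * m) ν with h2m | h2m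
  · have h3 := h1 p hp2 ν m hmν.le h2m hν1 hPq χ hχ H hH hev
    have h4 : ((GS hmν.le χ H c1).ncard : ℝ) ≤ ((GS hmν.le χ H (min c1 c3)).ncard : ℝ) := by
      exact_mod_cast GS_mono hmν.le χ H (min_le_left _ _)
    refine le_trans ?_ (h3.trans h4)
    exact mul_le_mul_of_nonneg_right (min_le_left _ _) hP0.le
  obtain ⟨θ₀, hθ₀, hev⟩ := hev
  have hcyc : IsCyclic (DirichletCharacter ℂ (p ^ m)) := chars_cyc hp hp2
  obtain ⟨k, hk⟩ : ∃ k, k = ν / 2 := ⟨_, rfl⟩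
  have hk2 : 2 * k ≤ ν := by omega
  have hkν : k ≤ ν := by omega
  have hkm : k ≤ m := by omega
  have : NeZero (p ^ k) := ⟨pow_ne_zero _ hp.ne_zero⟩
  classical
  have hPk : ((p : ℝ) ^ ν) ^ (1 / 3 + 1 / 12 : ℝ) ≤ (p : ℝ) ^ k := by
    rw [← Real.rpow_natCast, ← Real.rpow_natCast, ← Real.rpow_mul hp0.le]
    apply Real.rpow_le_rpow_of_exponent_le hp1.le
    have h3 : (ν : ℝ) ≤ 2 * k + 1 := by
      have : ν ≤ 2 * k + 1 := by omega
      exact_mod_cast this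
    have h4 : (6 : ℝ) ≤ ν := by exact_mod_cast hν6
    linarith
  set f : DirichletCharacter ℂ (p ^ k) →* DirichletCharacter ℂ (p ^ m) :=
    DirichletCharacter.changeLevel (pow_dvd_pow p hkm) with hf
  have hHk : (H.comap f).index ≤ d := by
    rw [Subgroup.index_comap, ← hH]
    exact Nat.le_of_dvd (Nat.pos_of_ne_zero Subgroup.index_ne_zero_of_finite)
      (Subgroup.relIndex_dvd_index_of_normal _ _)
  -- the good characters in `H`
  set W : Finset (DirichletCharacter ℂ (p ^ m)) := (GS hmν.le χ H c2).toFinite.toFinset with hW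
  have hWmem : ∀ ξ, ξ ∈ W ↔ ξ ∈ GS hmν.le χ H c2 := by
    intro ξ; rw [hW, Set.Finite.mem_toFinset]
  have hWn : (GS hmν.le χ H c2).ncard = W.card := by
    rw [hW, Set.ncard_eq_toFinset_card _ (GS hmν.le χ H c2).toFinite]
  have hcl : ∀ (ψ : DirichletCharacter ℂ (p ^ ν)) (θ : DirichletCharacter ℂ (p ^ m))
      (η : DirichletCharacter ℂ (p ^ k)), tw hkν (tw hmν.le ψ θ) η = tw hmν.le ψ (θ * f η) := by
    intro ψ θ η
    unfold tw
    rw [map_mul, mul_assoc, hf, ← DirichletCharacter.changeLevel_trans]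
  -- for every `θ`
  have hone : ∀ θ : DirichletCharacter ℂ (p ^ m), c2 * (p : ℝ) ^ k ≤
      ((univ.filter fun η : DirichletCharacter ℂ (p ^ k) => θ₀ * θ ^ D * f η ∈ W).card : ℝ) := by
    intro θ
    have hmem : θ₀ * θ ^ D ∈ H := by
      apply H.mul_mem hθ₀
      rw [hDd, mul_comm, pow_mul, ← hH]
      exact H.pow_mem (Subgroup.pow_index_mem H θ) 2
    have hprim : (tw hmν.le χ (θ₀ * θ ^ D)).IsPrimitive := Pool.Agent.Y766.R3.prim_mul hp hmν hχ _
    have hev' : (tw hmν.le χ (θ₀ * θ ^ D)).Even := by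
      rw [← tw_tw]
      unfold DirichletCharacter.Even
      have h1 := tw_apply hmν.le (tw hmν.le χ θ₀) (θ ^ D) (-1)
      simp only [Int.cast_neg, Int.cast_one] at h1
      have h0 : tw hmν.le χ θ₀ (-1) = 1 := hev
      rw [h1, h0, one_mul, MulChar.pow_apply' θ (by omega)]
      have h2 : θ (-1) ^ 2 = 1 := by
        rw [← map_pow, neg_one_sq, map_one]
      rw [hDd, pow_mul, h2, one_pow]
    have h3 := h2 p hp2 ν k hkν hk2 hν2 hPk (tw hmν.le χ (θ₀ * θ ^ D)) hprim (H.comap f) hHk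
      ⟨1, (H.comap f).one_mem, by rw [map_one, mul_one]; exact hev'⟩
    refine h3.trans ?_
    rw [← Set.ncard_coe_finset]
    have : (GS hkν (tw hmν.le χ (θ₀ * θ ^ D)) (H.comap f) c2).ncard ≤
        (((univ.filter fun η : DirichletCharacter ℂ (p ^ k) => θ₀ * θ ^ D * f η ∈ W) : Finset _) :
          Set (DirichletCharacter ℂ (p ^ k))).ncard := by
      apply Set.ncard_le_ncard _ (Set.toFinite _)
      rintro η ⟨e1, e2⟩
      rw [mem_coe, mem_filter, hWmem]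
      refine ⟨mem_univ _, H.mul_mem hmem e1, ?_⟩
      have e3 := hcl χ (θ₀ * θ ^ D) η
      unfold tw at e3
      rw [← e3]
      exact e2
    exact_mod_cast this
  -- double counting
  have hdc : ∀ η : DirichletCharacter ℂ (p ^ k),
      (univ.filter fun θ : DirichletCharacter ℂ (p ^ m) => θ₀ * θ ^ D * f η ∈ W).card ≤ D * W.card := by
    intro η
    have h3 : (univ.filter fun θ : DirichletCharacter ℂ (p ^ m) => θ₀ * θ ^ D * f η ∈ W) ⊆
        W.biUnion fun ξ => univ.filter fun θ : DirichletCharacter ℂ (p ^ m) => θ ^ D = θ₀⁻¹ * ξ * (f η)⁻¹ := by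
      intro θ hθ
      rw [mem_filter] at hθ
      rw [mem_biUnion]
      refine ⟨_, hθ.2, ?_⟩
      rw [mem_filter]
      refine ⟨mem_univ _, ?_⟩
      rw [mul_assoc θ₀, inv_mul_cancel_left, mul_inv_cancel_right]
    calc _ ≤ _ := card_le_card h3
      _ ≤ ∑ ξ ∈ W, (univ.filter fun θ : DirichletCharacter ℂ (p ^ m) => θ ^ D = θ₀⁻¹ * ξ * (f η)⁻¹).card :=
          card_biUnion_le
      _ ≤ ∑ ξ ∈ W, D := sum_le_sum fun ξ _ => fib_le hD _
      _ = D * W.card := by rw [sum_const, smul_eq_mul, mul_comm]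
  have hswap : ∑ θ : DirichletCharacter ℂ (p ^ m),
      ((univ.filter fun η : DirichletCharacter ℂ (p ^ k) => θ₀ * θ ^ D * f η ∈ W).card : ℝ) =
      ∑ η : DirichletCharacter ℂ (p ^ k),
      ((univ.filter fun θ : DirichletCharacter ℂ (p ^ m) => θ₀ * θ ^ D * f η ∈ W).card : ℝ) := by
    simp only [card_filter, Nat.cast_sum]
    rw [sum_comm]
  have hcm : (Fintype.card (DirichletCharacter ℂ (p ^ m)) : ℝ) = (Nat.totient (p ^ m) : ℝ) := by
    rw [← Nat.card_eq_fintype_card, DirichletCharacter.card_eq_totient_of_hasEnoughRootsOfUnity]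
  have hck : (Fintype.card (DirichletCharacter ℂ (p ^ k)) : ℝ) ≤ (p : ℝ) ^ k := by
    rw [← Nat.card_eq_fintype_card, DirichletCharacter.card_eq_totient_of_hasEnoughRootsOfUnity]
    have := Nat.totient_le (p ^ k)
    have h1 : ((Nat.totient (p ^ k) : ℕ) : ℝ) ≤ ((p ^ k : ℕ) : ℝ) := by exact_mod_cast this
    rwa [Nat.cast_pow] at h1
  have hφge : (p : ℝ) ^ m / 2 ≤ ((Nat.totient (p ^ m) : ℕ) : ℝ) := by
    rw [Nat.totient_prime_pow hp (by omega)]
    obtain ⟨m', rfl⟩ : ∃ m', m = m' + 1 := ⟨m - 1, by omega⟩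
    rw [Nat.add_sub_cancel]
    have h2 : ((p - 1 : ℕ) : ℝ) = (p : ℝ) - 1 := by
      rw [Nat.cast_sub hp.one_lt.le, Nat.cast_one]
    push_cast
    rw [h2, pow_succ]
    have h3 : (2 : ℝ) ≤ p := by exact_mod_cast hp.two_le
    have h4 : (0 : ℝ) < (p : ℝ) ^ m' := by positivity
    nlinarith
  have h5 : (p : ℝ) ^ m / 2 * (c2 * (p : ℝ) ^ k) ≤ (p : ℝ) ^ k * (D * W.card) := by
    calc (p : ℝ) ^ m / 2 * (c2 * (p : ℝ) ^ k) ≤
          (Fintype.card (DirichletCharacter ℂ (p ^ m)) : ℝ) * (c2 * (p : ℝ) ^ k) := by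
          rw [hcm]; gcongr
      _ = ∑ θ : DirichletCharacter ℂ (p ^ m), c2 * (p : ℝ) ^ k := by
          rw [sum_const, card_univ, nsmul_eq_mul]
      _ ≤ _ := sum_le_sum fun θ _ => hone θ
      _ = _ := hswap
      _ ≤ ∑ η : DirichletCharacter ℂ (p ^ k), (D * W.card : ℝ) :=
          sum_le_sum fun η _ => by exact_mod_cast hdc η
      _ = (Fintype.card (DirichletCharacter ℂ (p ^ k)) : ℝ) * (D * W.card) := by
          rw [sum_const, card_univ, nsmul_eq_mul]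
      _ ≤ _ := by gcongr
  have hk0 : (0 : ℝ) < (p : ℝ) ^ k := by positivity
  have h6 : c3 * (p : ℝ) ^ m ≤ W.card := by
    have h7 : (p : ℝ) ^ m / 2 * c2 ≤ D * W.card := by
      have : (p : ℝ) ^ k * ((p : ℝ) ^ m / 2 * c2) ≤ (p : ℝ) ^ k * (D * W.card) := by
        calc _ = (p : ℝ) ^ m / 2 * (c2 * (p : ℝ) ^ k) := by ring
          _ ≤ _ := h5
      exact le_of_mul_le_mul_left this hk0
    have hD0 : (0 : ℝ) < D := by linarith
    rw [hc3, div_mul_eq_mul_div, div_le_iff₀ (by positivity)]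
    linarith
  have h8 : ((GS hmν.le χ H c2).ncard : ℝ) ≤ ((GS hmν.le χ H (min c1 c3)).ncard : ℝ) := by
    exact_mod_cast GS_mono hmν.le χ H ((min_le_right _ _).trans hc32)
  rw [hWn] at h8
  refine le_trans ?_ (h6.trans h8)
  exact mul_le_mul_of_nonneg_right (min_le_right _ _) hP0.le

end Pool.Agent.Run7.h343.PV
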