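import Pool.Agent.Run7.h343.PV.Iface2

/-!
# Project PV, fourth part: first moments over the `d`-th powers (thin subgroups, Galois orbits)
-/

set_option autoImplicit false

namespace Pool.Agent.Run7.h343.PV

open Finset Complex

/-- FM1D (from TAIL). As FM1, but over the `d`-th powers `θ ^ d`, without the factor `1 + χθ(-1)`.
`∑_θ θ^d(a) = ∑_θ θ(a^d) = φ(p^m) [a^d ≡ 1 mod p^m]` (`p ∤ a`), so the sum is `φ(p^m)` times the sum over the pairs `(l,n)`,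
`l ≤ Y`, `n ≤ N`, `p ∤ l n`, with `(l n)^d ≡ 1 mod P`, `P = p^m`, of terms bounded by `1/√(l n)`. The pair
`l n = 1` gives `w(0)`. There are at most `d` residue classes `ω` with `ω^d = 1` (`(ℤ/p^m)ˣ` is cyclic, `p` odd). For each:
the pairs with `P ≤ 2 ⌊Y⌋ n` and `l n ≡ ω` contribute at most TAIL (`n ≡ ω l⁻¹`). The pairs with
`2 ⌊Y⌋ n < P`, `l n ≡ ω` have `l n < P`, so `l n = k` is determined by `ω`, and if `k ≠ 1`, then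
`k^d > P`; there are `τ(k) ≤ C₀ k^(1/4)` of them (divisor bound: search the library), each is at most `1/√k`; total
`≤ C₀ k^(-1/4) ≤ C₀ P^(-1/(4d))`. -/
def S_FM1D : Prop := ∃ C : ℝ, 0 < C ∧ ∀ (d : ℕ), 1 ≤ d →
  ∀ (p ν m N : ℕ) (hmν : m ≤ ν) [NeZero (p ^ m)] (χ : DirichletCharacter ℂ (p ^ ν))
  (Y : ℝ) (w : ℝ → ℝ), p.Prime → p ≠ 2 → 1 ≤ m → 1 ≤ Y → 1 ≤ N → (∀ t, |w t| ≤ 1) →
  ‖∑ θ : DirichletCharacter ℂ (p ^ m), Mol Y (tw hmν χ (θ ^ d)) * AA N w (tw hmν χ (θ ^ d)) -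
    ((Nat.totient (p ^ m) : ℕ) : ℂ) * ((w 0 : ℝ) : ℂ)‖ ≤
    Nat.totient (p ^ m) * (d * (4 * Y * (Real.sqrt (Y / (p : ℝ) ^ m) + Real.sqrt N / (p : ℝ) ^ m) +
      C * ((p : ℝ) ^ m) ^ (-(1 / (4 * (d : ℝ))))))

/-- FM2D (from DUAL). `∑_θ θ^d(b) θ^d(l) conj θ^d(n) = φ(p^m) [(b l)^d ≡ n^d]` for `p ∤ l n`: at most `d`
classes `ω`, `ω^d = 1` (`(ℤ/p^m)ˣ` is cyclic, `p` odd), and for each of them DUAL with `u ≡ b ω`. -/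
def S_FM2D : Prop := ∃ C : ℝ, 0 < C ∧ ∀ (d : ℕ), 1 ≤ d → ∀ (p ν m N : ℕ) (hmν : m ≤ ν) [NeZero (p ^ m)]
  (χ : DirichletCharacter ℂ (p ^ ν)) (Y U : ℝ) (b : ℤ) (w : ℝ → ℝ),
  p.Prime → p ≠ 2 → 1 ≤ m → p ^ m ≤ N → ¬ (p : ℤ) ∣ b → 2 ≤ Y → 1 ≤ U → (∀ t, |w t| ≤ 1) →
  (∀ s t, |w s - w t| ≤ |s - t| / U) →
  ‖∑ θ : DirichletCharacter ℂ (p ^ m), (θ ^ d) (b : ZMod (p ^ m)) *
      (Mol Y (tw hmν χ (θ ^ d)) * (starRingEnd ℂ) (AA N w (tw hmν χ (θ ^ d))))‖ ≤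
    Nat.totient (p ^ m) * (d * (C * (1 / Real.log Y + 1 / U) +
      C * Y ^ 2 * (1 / Real.sqrt ((p : ℝ) ^ m) + Real.sqrt N / (p : ℝ) ^ m)))

end Pool.Agent.Run7.h343.PV
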