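import Pool.Agent.Run7.h343.PV.Fin
import Pool.Agent.Run7.h343.PV.Iface4

/-!
# Project PV: subgroups of index `d`
-/

set_option autoImplicit false

namespace Pool.Agent.Run7.h343.PV

open Finset Complex

lemma chars_cyc {p m : ℕ} [NeZero (p ^ m)] (hp : p.Prime) (hp2 : p ≠ 2) :
    IsCyclic (DirichletCharacter ℂ (p ^ m)) := by
  obtain ⟨e⟩ := MulChar.mulEquiv_units (ZMod (p ^ m)) ℂ
  have : IsCyclic (ZMod (p ^ m))ˣ := ZMod.isCyclic_units_of_prime_pow p hp hp2 m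
  exact isCyclic_of_surjective e.symm e.symm.surjective

lemma fib_le {G : Type*} [Group G] [Fintype G] [DecidableEq G] [IsCyclic G] {d : ℕ} (hd : 1 ≤ d) (θ : G) :
    ((univ : Finset G).filter fun η => η ^ d = θ).card ≤ d := by
  letI : CommGroup G := IsCyclic.commGroup
  rcases ((univ : Finset G).filter fun η => η ^ d = θ).eq_empty_or_nonempty with h0 | ⟨η0, h0⟩
  · rw [h0]; simp
  have h0' := (mem_filter.1 h0).2
  refine le_trans ?_ (IsCyclic.card_pow_eq_one_le (α := G) (n := d) (by omega))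
  refine card_le_card_of_injOn (fun η => η * η0⁻¹) ?_ ?_
  · intro η hη
    have hη' := (mem_filter.1 hη).2
    simp only [coe_filter, mem_univ, true_and, Set.mem_ofPred_eq]
    rw [mul_pow, inv_pow, hη', h0', mul_inv_cancel]
  · intro η _ η' _ h
    exact mul_right_cancel h

lemma sum_pow_le {G : Type*} [Group G] [Fintype G] [DecidableEq G] [IsCyclic G] {d : ℕ} (hd : 1 ≤ d)
    (f : G → ℝ) (hf : ∀ x, 0 ≤ f x) : ∑ x : G, f (x ^ d) ≤ d * ∑ x : G, f x := by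
  have e1 : ∀ x : G, f (x ^ d) = ∑ θ : G, if x ^ d = θ then f θ else 0 := by
    intro x
    rw [sum_ite_eq]
    simp
  simp_rw [e1]
  rw [sum_comm, mul_sum]
  refine sum_le_sum fun θ _ => ?_
  rw [← sum_filter, sum_const, nsmul_eq_mul]
  exact mul_le_mul_of_nonneg_right (by exact_mod_cast fib_le hd θ) (hf θ)

/-- the numerical facts -/
lemma numD {J p ν m d : ℕ} {C1 C2 CW : ℝ} (hC1 : 0 < C1) (hC2 : 0 < C2) (hCW : 0 < CW) (hJ : 12 ≤ J)
    (hp : p.Prime) (hd : 1 ≤ d)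
    (hU : 1024 + 128 * (d * (C2 + 8)) + 256 * CW + 1024 * (d : ℝ) ^ 2 * C1 ≤ UU J p ν) (hP2 : 2 * m ≤ ν)
    (hP : ((p : ℝ) ^ ν) ^ (1 / 3 : ℝ) ≤ (p : ℝ) ^ m) :
    d * (4 * YY J p ν * (Real.sqrt (YY J p ν / (p : ℝ) ^ m) + Real.sqrt (NN J p ν) / (p : ℝ) ^ m) +
      C1 * ((p : ℝ) ^ m) ^ (-(1 / (4 * (d : ℝ))))) ≤ 1 / 16 ∧
    d * (C2 * (1 / Real.log (YY J p ν) + 1 / UU J p ν) + C2 * YY J p ν ^ 2 *
      (1 / Real.sqrt ((p : ℝ) ^ m) + Real.sqrt (NN J p ν) / (p : ℝ) ^ m)) ≤ 1 / 16 := by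
  have hd1 : (1 : ℝ) ≤ d := by exact_mod_cast hd
  have hd0 : (0 : ℝ) < d := by linarith
  have hU' : 1024 + 128 * (d * (C2 + 8)) + 256 * CW ≤ UU J p ν := by
    have : 0 ≤ 1024 * (d : ℝ) ^ 2 * C1 := by positivity
    linarith
  obtain ⟨-, n2, -, -, n5, -, n7, -⟩ := num (C2 := d * (C2 + 8)) (by positivity) hCW hJ hp hU' hP2 hP
  have hJ1 : 1 ≤ J := by omega
  have hq := UU_pos_eq (ν := ν) hJ1 hp
  set U := UU J p ν with hUd
  set Y := YY J p ν with hY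
  have hp0 : (0 : ℝ) < p := by exact_mod_cast hp.pos
  have hJr : (12 : ℝ) ≤ J := by exact_mod_cast hJ
  have hU0 : 1024 * (d : ℝ) ^ 2 * C1 ≤ U := by
    have : 0 ≤ 1024 + 128 * (d * (C2 + 8)) + 256 * CW := by positivity
    linarith
  have hUp : 0 < U := lt_of_lt_of_le (by positivity) hU0
  have hlogY : Real.log Y = U := by rw [hY]; unfold YY; rw [Real.log_exp]
  have hP0 : (0 : ℝ) < (p : ℝ) ^ m := by positivity
  have hY0 : 0 < Y := by linarith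
  set T := 1 / Real.sqrt ((p : ℝ) ^ m) + Real.sqrt (NN J p ν) / (p : ℝ) ^ m with hT
  have hT0 : 0 ≤ T := by positivity
  have hS0 : 0 ≤ 1 / Real.log Y + 1 / U := by rw [hlogY]; positivity
  have g1 : 8 * d * (Y ^ 2 * T) ≤ 1 / 16 := by
    have h1 : 0 ≤ d * (C2 + 8) * (1 / Real.log Y + 1 / U) := by positivity
    have h2 : 0 ≤ d * C2 * (Y ^ 2 * T) := by positivity
    nlinarith
  have g2 : Y * (Real.sqrt (Y / (p : ℝ) ^ m) + Real.sqrt (NN J p ν) / (p : ℝ) ^ m) ≤ Y ^ 2 * T := by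
    have h1 : Real.sqrt (Y / (p : ℝ) ^ m) ≤ Y * (1 / Real.sqrt ((p : ℝ) ^ m)) := by
      rw [Real.sqrt_div hY0.le, mul_one_div]
      have : Real.sqrt Y ≤ Y := by
        rw [Real.sqrt_le_left hY0.le]; nlinarith
      gcongr
    have h2 : Real.sqrt (NN J p ν) / (p : ℝ) ^ m ≤ Y * (Real.sqrt (NN J p ν) / (p : ℝ) ^ m) := by
      have : 0 ≤ Real.sqrt (NN J p ν) / (p : ℝ) ^ m := by positivity
      nlinarith
    calc _ ≤ Y * (Y * (1 / Real.sqrt ((p : ℝ) ^ m)) + Y * (Real.sqrt (NN J p ν) / (p : ℝ) ^ m)) := by gcongr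
      _ = _ := by rw [hT]; ring
  have g3 : ((p : ℝ) ^ m) ^ (-(1 / (4 * (d : ℝ)))) ≤ d / (20 * U) := by
    have h1 : Real.exp (80 * U) ≤ (p : ℝ) ^ m := by
      refine le_trans ?_ hP
      rw [hq, ← Real.exp_mul]
      apply Real.exp_le_exp.2
      nlinarith
    calc ((p : ℝ) ^ m) ^ (-(1 / (4 * (d : ℝ)))) ≤ (Real.exp (80 * U)) ^ (-(1 / (4 * (d : ℝ)))) :=
          Real.rpow_le_rpow_of_nonpos (Real.exp_pos _) h1 (by
            have : 0 ≤ 1 / (4 * (d : ℝ)) := by positivity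
            linarith)
      _ = Real.exp (-(20 * U / d)) := by
          rw [← Real.exp_mul]; congr 1; field_simp; norm_num
      _ ≤ _ := by
          rw [Real.exp_neg, ← one_div, div_le_div_iff₀ (Real.exp_pos _) (by positivity), one_mul]
          have h2 := Real.add_one_le_exp (20 * U / d)
          have h3 : 20 * U = d * (20 * U / d) := by field_simp
          calc 20 * U = d * (20 * U / d) := h3
            _ ≤ d * Real.exp (20 * U / d) := by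
                refine mul_le_mul_of_nonneg_left ?_ hd0.le
                linarith
  have g4 : d * (C1 * ((p : ℝ) ^ m) ^ (-(1 / (4 * (d : ℝ))))) ≤ 1 / 32 := by
    calc d * (C1 * ((p : ℝ) ^ m) ^ (-(1 / (4 * (d : ℝ))))) ≤ d * (C1 * (d / (20 * U))) := by gcongr
      _ = (d ^ 2 * C1) / (20 * U) := by ring
      _ ≤ 1 / 32 := by
          rw [div_le_div_iff₀ (by positivity) (by norm_num)]
          nlinarith
  constructor
  · calc _ = 4 * d * (Y * (Real.sqrt (Y / (p : ℝ) ^ m) + Real.sqrt (NN J p ν) / (p : ℝ) ^ m)) +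
          d * (C1 * ((p : ℝ) ^ m) ^ (-(1 / (4 * (d : ℝ))))) := by ring
      _ ≤ 4 * d * (Y ^ 2 * T) + 1 / 32 := by gcongr
      _ ≤ _ := by linarith
  · have h1 : 0 ≤ 8 * d * (1 / Real.log Y + 1 / U) := by positivity
    have h2 : 0 ≤ 8 * d * (Y ^ 2 * T) := by positivity
    nlinarith

theorem fin_D (hSEC : S_SEC) (hWT : S_WT) (hFM1 : S_FM1D) (hFM2 : S_FM2D) (hMM : S_MM) (hAFE : S_AFE)
    (hROOT : S_ROOT) {δ : ℝ} (hδ : 0 < δ) {D : ℕ} (hD : 1 ≤ D) (hDe : Even D) :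
    ∃ c : ℝ, 0 < c ∧ ∃ ν₀ : ℕ, ∀ (p : ℕ) [Fact p.Prime], p ≠ 2 → ∀ (ν m : ℕ) (hmν : m ≤ ν), 2 * m ≤ ν →
      ν₀ ≤ ν → ((p : ℝ) ^ ν) ^ (1 / 3 + δ) ≤ (p : ℝ) ^ m →
      ∀ χ : DirichletCharacter ℂ (p ^ ν), χ.IsPrimitive → χ.Even →
      c * (p : ℝ) ^ m ≤ ((univ.filter fun θ : DirichletCharacter ℂ (p ^ m) =>
        1 / (16 * Real.sqrt (D * Real.log ((p : ℝ) ^ ν))) ≤
          ‖(tw hmν χ (θ ^ D)).LFunction (1 / 2)‖).card : ℝ) := by
  obtain ⟨J0, hJ⟩ := hSEC δ hδ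
  set J := max J0 12 with hJd
  have hJ12 : 12 ≤ J := le_max_right _ _
  have hJ1 : 1 ≤ J := by omega
  obtain ⟨CS, hCS, νS, hS⟩ := hJ J (le_max_left _ _)
  obtain ⟨CW, hCW, hW⟩ := hWT J hJ1
  obtain ⟨C1, hC1, hF1⟩ := hFM1
  obtain ⟨C2, hC2, hF2⟩ := hFM2
  have hDr : (1 : ℝ) ≤ D := by exact_mod_cast hD
  set U₀ : ℝ := 1024 + 128 * (D * (C2 + 8)) + 256 * CW + 1024 * (D : ℝ) ^ 2 * C1 with hU₀
  have hU₀0 : 0 < U₀ := by positivity
  refine ⟨1 / (64 * (32 * (D * CS) + 8)), by positivity, max (max νS 1) ⌈40 * J * U₀⌉₊, ?_⟩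
  intro p hpf hp2 ν m hmν h2m hν hPq χ hχ hχe
  have hp : p.Prime := hpf.out
  have hp0 : (0 : ℝ) < p := by exact_mod_cast hp.pos
  have hp1 : (1 : ℝ) < p := by exact_mod_cast hp.one_lt
  have hνS : νS ≤ ν := (le_max_left _ _).trans ((le_max_left _ _).trans hν)
  have hν1 : 1 ≤ ν := (le_max_right _ _).trans ((le_max_left _ _).trans hν)
  have hνU : ⌈40 * J * U₀⌉₊ ≤ ν := (le_max_right _ _).trans hν
  have : NeZero (p ^ ν) := ⟨pow_ne_zero _ hp.ne_zero⟩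
  have : NeZero (p ^ m) := ⟨pow_ne_zero _ hp.ne_zero⟩
  have hcyc : IsCyclic (DirichletCharacter ℂ (p ^ m)) := chars_cyc hp hp2
  have hJr : (0 : ℝ) < J := by exact_mod_cast hJ1
  have hU : U₀ ≤ UU J p ν := by
    refine le_trans ?_ (UU_ge (ν := ν) hJ1 hp)
    rw [le_div_iff₀ (by positivity)]
    have h1 : 40 * (J : ℝ) * U₀ ≤ ν := (Nat.le_ceil _).trans (by exact_mod_cast hνU)
    linarith
  have hq1 : (1 : ℝ) < (p : ℝ) ^ ν := one_lt_pow₀ hp1 (by omega)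
  have hm1 : 1 ≤ m := by
    by_contra hcon
    have hm0 : m = 0 := by omega
    rw [hm0, pow_zero] at hPq
    exact absurd hPq (not_le.2 (Real.one_lt_rpow hq1 (by positivity)))
  have hmν' : m < ν := by omega
  have hPq3 : ((p : ℝ) ^ ν) ^ (1 / 3 : ℝ) ≤ (p : ℝ) ^ m :=
    (Real.rpow_le_rpow_of_exponent_le hq1.le (by linarith)).trans hPq
  obtain ⟨n1, n2⟩ := numD hC1 hC2 hCW hJ12 hp hD hU h2m hPq3
  have hU' : 1024 + 128 * (D * (C2 + 8)) + 256 * CW ≤ UU J p ν := by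
    have : 0 ≤ 1024 * (D : ℝ) ^ 2 * C1 := by positivity
    linarith
  obtain ⟨-, -, n3, n4, n5, n6, n7, n8⟩ := num (C2 := D * (C2 + 8)) (by positivity) hCW hJ12 hp hU' h2m hPq3
  have hUge : 1024 ≤ UU J p ν := by
    have : 0 ≤ 128 * (D * (C2 + 8)) + 256 * CW := by positivity
    linarith
  have hU1 : 1 ≤ UU J p ν := by linarith
  obtain ⟨w, w1, w2, w3, w4, w5⟩ := hAFE (p ^ ν) (by
    calc 2 ≤ p := hp.two_le
      _ = p ^ 1 := (pow_one p).symm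
      _ ≤ p ^ ν := Nat.pow_le_pow_right hp.pos hν1) (UU J p ν) hU1
  simp only [Nat.cast_pow] at w3 w4
  obtain ⟨b, hb, hroot⟩ := hROOT p ν m hmν hp hp2 hm1 h2m χ hχ
  set κ : ℂ := gaussSum χ ZMod.stdAddChar / ((p ^ ν : ℕ) : ℂ) ^ (1 / 2 : ℂ) with hκ
  have hκ1 : ‖κ‖ = 1 := by
    have h1 := Pool.Agent.Helper112.MLS.norm_gauss (p ^ ν) hχ
    have h0 : (0 : ℝ) < ((p ^ ν : ℕ) : ℝ) := by push_cast; positivity
    have h3 : ‖((p ^ ν : ℕ) : ℂ) ^ (1 / 2 : ℂ)‖ = Real.sqrt ((p ^ ν : ℕ) : ℝ) := by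
      rw [Complex.norm_natCast_cpow_of_pos (NeZero.pos (p ^ ν))]
      rw [Real.sqrt_eq_rpow]
      congr 1
      norm_num
    rw [hκ, norm_div, h3, ← h1, Real.sqrt_sq (norm_nonneg _)]
    apply div_self
    intro h4
    rw [h4] at h1
    rw [← h1] at h0
    norm_num at h0
  set Y := YY J p ν with hY
  set N := NN J p ν with hN
  set R : ℝ := 2 * (CW / (p : ℝ) ^ ν) with hR
  have hY1 : 1 ≤ Y := by linarith
  set A : DirichletCharacter ℂ (p ^ m) → ℂ := fun θ => AA N w (tw hmν χ (θ ^ D)) with hA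
  set M : DirichletCharacter ℂ (p ^ m) → ℂ := fun θ => Mol Y (tw hmν χ (θ ^ D)) with hM
  set L : DirichletCharacter ℂ (p ^ m) → ℂ := fun θ => (tw hmν χ (θ ^ D)).LFunction (1 / 2) with hL
  have key : ∀ θ : DirichletCharacter ℂ (p ^ m), ∃ r : ℂ, ‖r‖ ≤ R ∧
      L θ = A θ + κ * ((θ ^ D) (b : ZMod (p ^ m)) * (starRingEnd ℂ) (A θ)) + r := by
    intro θ
    have hev : (tw hmν χ (θ ^ D)).Even := by
      unfold DirichletCharacter.Even
      have h1 := tw_apply hmν χ (θ ^ D) (-1)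
      simp only [Int.cast_neg, Int.cast_one] at h1
      rw [h1, hχe, one_mul, MulChar.pow_apply' θ (by omega)]
      have h2 : θ (-1) ^ 2 = 1 := by
        rw [← map_pow, neg_one_sq, map_one]
      obtain ⟨k, hk⟩ := hDe
      rw [hk, ← two_mul, pow_mul, h2, one_pow]
    have hprim : (tw hmν χ (θ ^ D)).IsPrimitive := Pool.Agent.Y766.R3.prim_mul hp hmν' hχ (θ ^ D)
    have h1 := w5 (tw hmν χ (θ ^ D)) hprim hev
    have h3 : (tw hmν χ (θ ^ D)).rootNumber = (θ ^ D) (b : ZMod (p ^ m)) * κ := by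
      unfold DirichletCharacter.rootNumber
      rw [if_pos hev, pow_zero, div_one, hκ]
      have := hroot (θ ^ D)
      unfold tw
      rw [this, mul_div_assoc]
    have hW1 := hW p ν w (fun n => tw hmν χ (θ ^ D) (n : ZMod (p ^ ν))) hp hU1 w1 w4
      (fun n => DirichletCharacter.norm_le_one _ _)
    have hW2 := hW p ν w (fun n => (starRingEnd ℂ) (tw hmν χ (θ ^ D) (n : ZMod (p ^ ν)))) hp hU1 w1 w4
      (fun n => by rw [RCLike.norm_conj]; exact DirichletCharacter.norm_le_one _ _)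
    set S1 := ∑' n : ℕ, tw hmν χ (θ ^ D) (n : ZMod (p ^ ν)) * ((w (Real.log n) / Real.sqrt n : ℝ) : ℂ) with hS1
    set S2 := ∑' n : ℕ, (starRingEnd ℂ) (tw hmν χ (θ ^ D) (n : ZMod (p ^ ν))) *
      ((w (Real.log n) / Real.sqrt n : ℝ) : ℂ) with hS2
    have hconj : (starRingEnd ℂ) (A θ) = ∑ n ∈ Icc 1 N, ((w (Real.log n) / Real.sqrt n : ℝ) : ℂ) *
        (starRingEnd ℂ) (tw hmν χ (θ ^ D) (n : ZMod (p ^ ν))) := by
      simp only [hA, AA, map_sum, map_mul, Complex.conj_ofReal]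
    have hW1' : ‖S1 - A θ‖ ≤ CW / (p : ℝ) ^ ν := hW1
    have hW2' : ‖S2 - (starRingEnd ℂ) (A θ)‖ ≤ CW / (p : ℝ) ^ ν := by rw [hconj]; exact hW2
    refine ⟨(S1 - A θ) + (θ ^ D) (b : ZMod (p ^ m)) * κ * (S2 - (starRingEnd ℂ) (A θ)), ?_, ?_⟩
    · have hθ : ‖(θ ^ D) (b : ZMod (p ^ m))‖ ≤ 1 := DirichletCharacter.norm_le_one _ _
      have hc0 : 0 ≤ CW / (p : ℝ) ^ ν := by positivity
      calc _ ≤ ‖S1 - A θ‖ + ‖(θ ^ D) (b : ZMod (p ^ m)) * κ * (S2 - (starRingEnd ℂ) (A θ))‖ := norm_add_le _ _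
        _ ≤ CW / (p : ℝ) ^ ν + 1 * 1 * (CW / (p : ℝ) ^ ν) := by
            rw [norm_mul, norm_mul, hκ1]
            gcongr
        _ = R := by rw [hR]; ring
    · have : L θ = S1 + (tw hmν χ (θ ^ D)).rootNumber * S2 := h1
      rw [this, h3]
      ring
  choose r hr1 hr2 using key
  have hφle : ((Nat.totient (p ^ m) : ℕ) : ℝ) ≤ (p : ℝ) ^ m := by
    have := Nat.totient_le (p ^ m)
    have h1 : ((Nat.totient (p ^ m) : ℕ) : ℝ) ≤ ((p ^ m : ℕ) : ℝ) := by exact_mod_cast this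
    rwa [Nat.cast_pow] at h1
  have hφge : (p : ℝ) ^ m / 2 ≤ ((Nat.totient (p ^ m) : ℕ) : ℝ) := by
    rw [Nat.totient_prime_pow hp (by omega)]
    obtain ⟨m', rfl⟩ : ∃ m', m = m' + 1 := ⟨m - 1, by omega⟩
    rw [Nat.add_sub_cancel]
    have h2 : ((p - 1 : ℕ) : ℝ) = (p : ℝ) - 1 := by
      rw [Nat.cast_sub hp.one_lt.le, Nat.cast_one]
    push_cast
    rw [h2, pow_succ]
    have h3 : (2 : ℝ) ≤ p := by exact_mod_cast hp.two_le
    have h4 : (0 : ℝ) < (p : ℝ) ^ m' := by positivity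
    nlinarith
  have hcard : (Fintype.card (DirichletCharacter ℂ (p ^ m)) : ℝ) ≤ (p : ℝ) ^ m := by
    rw [← Nat.card_eq_fintype_card, DirichletCharacter.card_eq_totient_of_hasEnoughRootsOfUnity]
    exact hφle
  set φ : ℝ := ((Nat.totient (p ^ m) : ℕ) : ℝ) with hφ
  have hφ0 : 0 ≤ φ := Nat.cast_nonneg _
  have hMn : ∀ θ, ‖M θ‖ ≤ Y := fun θ => Mol_le hY1 _
  have hR0 : 0 ≤ R := by positivity
  have hP0 : (0 : ℝ) < (p : ℝ) ^ m := by positivity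
  -- the first moment
  have hsplit : ∑ θ, (1 : ℂ) * (M θ * L θ) = ∑ θ, M θ * A θ +
      κ * ∑ θ : DirichletCharacter ℂ (p ^ m), (θ ^ D) (b : ZMod (p ^ m)) * (M θ * (starRingEnd ℂ) (A θ)) +
      ∑ θ, M θ * r θ := by
    rw [mul_sum, ← sum_add_distrib, ← sum_add_distrib]
    refine sum_congr rfl fun θ _ => ?_
    rw [hr2 θ]; ring
  have f1 := hF1 D hD p ν m N hmν χ Y w hp hp2 hm1 hY1 (by
    have := n6; exact (Nat.one_le_pow _ _ hp.pos).trans this) (fun t => by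
      rw [abs_of_nonneg (w1 t).1]; exact (w1 t).2)
  have f2 := hF2 D hD p ν m N hmν χ Y (UU J p ν) b w hp hp2 hm1 n6 hb n7 hU1 (fun t => by
      rw [abs_of_nonneg (w1 t).1]; exact (w1 t).2) w2
  have f3 : ‖∑ θ, M θ * r θ‖ ≤ (p : ℝ) ^ m * (1 / 32) := by
    calc _ ≤ ∑ θ : DirichletCharacter ℂ (p ^ m), (Y * R) := by
          refine (norm_sum_le _ _).trans (sum_le_sum fun θ _ => ?_)
          rw [norm_mul]
          exact mul_le_mul (hMn θ) (hr1 θ) (norm_nonneg _) (by linarith)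
      _ = (Fintype.card (DirichletCharacter ℂ (p ^ m)) : ℝ) * (Y * R) := by
          rw [sum_const, card_univ, nsmul_eq_mul]
      _ ≤ (p : ℝ) ^ m * (1 / 64) := by gcongr
      _ ≤ _ := by linarith
  have hw0 : 3 / 4 ≤ w 0 := by
    have := w3 0
    linarith
  have hF : (p : ℝ) ^ m / 4 ≤ ‖∑ θ, (1 : ℂ) * (M θ * L θ)‖ := by
    set T1 := ∑ θ, M θ * A θ with hT1
    set T2 := ∑ θ : DirichletCharacter ℂ (p ^ m), (θ ^ D) (b : ZMod (p ^ m)) * (M θ * (starRingEnd ℂ) (A θ))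
      with hT2
    set T3 := ∑ θ, M θ * r θ with hT3
    rw [hsplit]
    have g1 : ‖T1 - ((Nat.totient (p ^ m) : ℕ) : ℂ) * ((w 0 : ℝ) : ℂ)‖ ≤ φ * (1 / 16) :=
      f1.trans (mul_le_mul_of_nonneg_left n1 hφ0)
    have g2 : ‖T2‖ ≤ φ * (1 / 16) := f2.trans (mul_le_mul_of_nonneg_left n2 hφ0)
    have g4 : ‖((Nat.totient (p ^ m) : ℕ) : ℂ) * ((w 0 : ℝ) : ℂ)‖ = φ * w 0 := by
      rw [norm_mul, Complex.norm_natCast, Complex.norm_real, Real.norm_eq_abs, abs_of_nonneg (w1 0).1]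
    have g5 : ((Nat.totient (p ^ m) : ℕ) : ℂ) * ((w 0 : ℝ) : ℂ) = (T1 + κ * T2 + T3) -
        (T1 - ((Nat.totient (p ^ m) : ℕ) : ℂ) * ((w 0 : ℝ) : ℂ)) - κ * T2 - T3 := by ring
    have g6 : φ * w 0 ≤ ‖T1 + κ * T2 + T3‖ + φ * (1 / 16) + φ * (1 / 16) + (p : ℝ) ^ m * (1 / 32) := by
      rw [← g4]
      conv_lhs => rw [g5]
      refine (norm_sub_le _ _).trans (add_le_add ?_ f3)
      refine (norm_sub_le _ _).trans (add_le_add ?_ ?_)
      · exact (norm_sub_le _ _).trans (add_le_add le_rfl g1)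
      · rw [norm_mul, hκ1, one_mul]; exact g2
    have g7 : φ * (3 / 4) ≤ φ * w 0 := mul_le_mul_of_nonneg_left hw0 hφ0
    linarith
  -- the second moment
  have s0 := hS p ν m hmν χ w hp hp2 hνS h2m hPq hχ w1 w2 w3 w4
  classical
  have s1 : ∑ θ, ‖M θ * A θ‖ ^ 2 ≤ D * (CS * (p : ℝ) ^ m) := by
    refine (sum_pow_le hD (fun η => ‖Mol Y (tw hmν χ η) * AA N w (tw hmν χ η)‖ ^ 2)
      (fun η => by positivity)).trans ?_
    gcongr
  have hSS : ∑ θ, ‖(1 : ℂ) * (M θ * L θ)‖ ^ 2 ≤ (32 * (D * CS) + 8) * (p : ℝ) ^ m := by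
    have hone : ∀ θ, ‖(1 : ℂ) * (M θ * L θ)‖ ^ 2 ≤ 32 * ‖M θ * A θ‖ ^ 2 + 8 := by
      intro θ
      have h1 : (1 : ℂ) * (M θ * L θ) = M θ * A θ + κ * ((θ ^ D) (b : ZMod (p ^ m)) *
          (M θ * (starRingEnd ℂ) (A θ))) + M θ * r θ := by
        rw [hr2 θ]; ring
      have hθ : ‖(θ ^ D) (b : ZMod (p ^ m))‖ ≤ 1 := DirichletCharacter.norm_le_one _ _
      have h2 : ‖(1 : ℂ) * (M θ * L θ)‖ ≤ 2 * ‖M θ * A θ‖ + 1 := by
        rw [h1]
        refine (norm_add_le _ _).trans ?_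
        have h3 : ‖M θ * r θ‖ ≤ 1 := by
          rw [norm_mul]
          calc ‖M θ‖ * ‖r θ‖ ≤ Y * R := mul_le_mul (hMn θ) (hr1 θ) (norm_nonneg _) (by linarith)
            _ ≤ 1 / 64 := n3
            _ ≤ 1 := by norm_num
        have h4 : ‖M θ * A θ + κ * ((θ ^ D) (b : ZMod (p ^ m)) * (M θ * (starRingEnd ℂ) (A θ)))‖ ≤
            2 * ‖M θ * A θ‖ := by
          refine (norm_add_le _ _).trans ?_
          rw [norm_mul κ, hκ1, one_mul, norm_mul ((θ ^ D) (b : ZMod (p ^ m))),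
            norm_mul (M θ) ((starRingEnd ℂ) (A θ)), RCLike.norm_conj, ← norm_mul]
          have : ‖(θ ^ D) (b : ZMod (p ^ m))‖ * ‖M θ * A θ‖ ≤ 1 * ‖M θ * A θ‖ := by gcongr
          linarith
        linarith
      calc ‖(1 : ℂ) * (M θ * L θ)‖ ^ 2 ≤ (2 * ‖M θ * A θ‖ + 1) ^ 2 := by gcongr
        _ ≤ _ := by nlinarith [sq_nonneg (2 * ‖M θ * A θ‖ - 1), sq_nonneg ‖M θ * A θ‖]
    calc ∑ θ, ‖(1 : ℂ) * (M θ * L θ)‖ ^ 2 ≤ ∑ θ, (32 * ‖M θ * A θ‖ ^ 2 + 8) := sum_le_sum fun θ _ => hone θ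
      _ = 32 * ∑ θ, ‖M θ * A θ‖ ^ 2 + (Fintype.card (DirichletCharacter ℂ (p ^ m)) : ℝ) * 8 := by
          rw [sum_add_distrib, ← mul_sum, sum_const, card_univ, nsmul_eq_mul]
      _ ≤ 32 * (D * (CS * (p : ℝ) ^ m)) + (p : ℝ) ^ m * 8 := by
          gcongr
      _ = _ := by ring
  have mm0 := hMM p ν m hmν χ Y hp hm1 hY1 n5
  have hlogY : Real.log Y = UU J p ν := by rw [hY]; unfold YY; rw [Real.log_exp]
  rw [hlogY] at mm0
  have mm : ∑ θ, ‖M θ‖ ^ 2 ≤ (p : ℝ) ^ m * (D * (1 + UU J p ν)) := by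
    refine (sum_pow_le hD (fun η => ‖Mol Y (tw hmν χ η)‖ ^ 2) (fun η => by positivity)).trans ?_
    calc (D : ℝ) * ∑ η, ‖Mol Y (tw hmν χ η)‖ ^ 2 ≤ D * ((p : ℝ) ^ m * (1 + UU J p ν)) := by gcongr
      _ = _ := by ring
  have hlogq : 0 < Real.log ((p : ℝ) ^ ν) := Real.log_pos hq1
  have hτ : 1 / (16 * Real.sqrt (D * Real.log ((p : ℝ) ^ ν))) * Real.sqrt (D * (1 + UU J p ν)) ≤ 1 / 16 := by
    have h1 : Real.sqrt (D * (1 + UU J p ν)) ≤ Real.sqrt (D * Real.log ((p : ℝ) ^ ν)) :=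
      Real.sqrt_le_sqrt (by gcongr)
    have h2 : 0 < Real.sqrt (D * Real.log ((p : ℝ) ^ ν)) := Real.sqrt_pos.2 (by positivity)
    calc _ ≤ 1 / (16 * Real.sqrt (D * Real.log ((p : ℝ) ^ ν))) * Real.sqrt (D * Real.log ((p : ℝ) ^ ν)) := by
          gcongr
      _ = 1 / 16 := by field_simp
  have hfin := cs_count (fun _ => (1 : ℂ)) M L hP0 (by positivity) (by positivity) (by positivity)
    (fun _ => by norm_num) hF hSS mm hcard hτ
  refine le_trans (le_of_eq ?_) hfin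
  field_simp

end Pool.Agent.Run7.h343.PV
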