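import Mathlib

/-!
# Positive proportion of non-vanishing of `L(1/2, χθ)` in thin cosets (project PV, helper343)

Target: for every `δ > 0` there is `c > 0` such that for odd primes `p`, `q = p ^ ν`, `P = p ^ m` with
`q ^ (1/3 + δ) ≤ P ≤ q ^ (1/2)` and `χ` primitive mod `q`, at least `c P` of the characters `θ` mod `P`
satisfy `L(1/2, χθ) ≠ 0`. (Literature: cosets of size `q ^ (1/2)`, Khan-Milicevic-Ngo.)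

Each `S_XXX` below is a closed proposition, to be proved as `theorem t_XXX : S_XXX` (or from the
earlier pieces named in the comment: `theorem t_XXX (h : S_YYY) : S_XXX`) in
`Pool/Agent/Run7/<you>/PV/XXX.lean`. The complete proof is in the comment.
-/

set_option autoImplicit false

namespace Pool.Agent.Run7.h343.PV

open Finset Complex

/-- the Moebius function with real values -/
noncomputable def mu (n : ℕ) : ℝ := ((ArithmeticFunction.moebius n : ℤ) : ℝ)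

/-- MD. `m_d(k) = ∑_{j ≤ k, (j,d)=1} μ(j)/j`. Claim: `∑_{k ≤ K} |m_d(k)| / k ≤ C d/φ(d)`.
Proof. (1) `m(k) = m_1(k)` satisfies `|m(k)| ≤ C / (log (k+1))^2` (prime number theorem strength; the
library has `Pool.Agent.H705R2.MSW.swMu : Pool.Agent.H807R2.SWMu`, take `q = 1, a = 0`, i.e.
`|∑_{n<N} μ(n)| ≤ N/(log N)^A` for `N ≥ N₀(A)`; partial summation: `m(N') - m(N)` is small, so `m`
converges, and the limit is `0`: search the library for `∑ μ(n)/n`). Hence `∑_k |m(k)|/k ≤ C₁`.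
(2) `m_d(k) = ∑_{i ≤ k, i | d^∞} (1/i) m(⌊k/i⌋)` (all prime factors of `i` divide `d`): from
`1_{(j,d)=1} μ(j) = ∑_{i e = j, i | d^∞} μ(e)`.
(3) `∑_{k ≥ i} |m(⌊k/i⌋)|/k ≤ ∑_{a ≥ 1} |m(a)| ∑_{ai ≤ k < (a+1)i} 1/k ≤ ∑_a |m(a)|/a ≤ C₁`, and
`∑_{i | d^∞} 1/i = ∏_{p | d} (1 - 1/p)⁻¹ = d/φ(d)`.  (Alternative: induction on the number of the
prime factors of `d`, adding one prime `p`: `m_{dp}(k) = m_d(k) + (1/p) m_{dp}(k/p)`.) -/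
def S_MD : Prop := ∃ C : ℝ, 0 < C ∧ ∀ d : ℕ, 1 ≤ d → ∀ K : ℕ,
  ∑ k ∈ Icc 1 K, |∑ j ∈ (Icc 1 k).filter (fun j => j.Coprime d), mu j / j| / k ≤
    C * ((d : ℝ) / Nat.totient d)

/-- LIP (from MD). Abel summation:
`∑_{k ≤ K, (k,d)=1} (μ(k)/k) G(k) = ∑_{k ≤ K} m_d(k) (G(k) - G(k+1))` as `G(K+1) = 0`. -/
def S_LIP : Prop := ∃ C : ℝ, 0 < C ∧ ∀ d : ℕ, 1 ≤ d → ∀ (Λ : ℝ) (G : ℕ → ℝ) (K : ℕ), 0 ≤ Λ →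
  (∀ k : ℕ, K < k → G k = 0) → (∀ k : ℕ, 1 ≤ k → |G (k + 1) - G k| ≤ Λ / k) →
  |∑ k ∈ (Icc 1 K).filter (fun k => k.Coprime d), mu k / k * G k| ≤ C * Λ * ((d : ℝ) / Nat.totient d)

/-- PHI2. Elementary: `μ²(d) d/φ(d)² ≤ (1/d)(d/φ(d))²`, `d/φ(d) = ∏_{p|d}(1+1/(p-1))`;
`∑_{d ≤ Y} μ²(d)/φ(d) ≤ ∏_{p ≤ Y}(1 + 1/(p-1))` or: `d/φ(d) = ∑_{e | d} μ²(e)/φ(e)`, so
`∑_{d≤Y} (1/d) ∏_{p|d}(1+c/p) ≤ ∑_e (c^ω(e)/e²) ∑_{d ≤ Y} 1/d`. -/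
def S_PHI2 : Prop := ∃ C : ℝ, 0 < C ∧ ∀ Y : ℕ, 1 ≤ Y →
  ∑ d ∈ Icc 1 Y, mu d ^ 2 / Nat.totient d ≤ C * (1 + Real.log Y) ∧
  ∑ d ∈ Icc 1 Y, mu d ^ 2 * d / (Nat.totient d : ℝ) ^ 2 ≤ C * (1 + Real.log Y)

/-- QF (from LIP, PHI2). Selberg's quadratic form. For squarefree `l₁, l₂` and `σ ∈ [1,2]`:
`1/lcm^σ = gcd^σ/(l₁l₂)^σ = ∑_{d | l₁, d | l₂} J(d)/(l₁l₂)^σ`, `J(d) = ∏_{p|d}(p^σ - 1) ≤ d^σ`
(`∑_{d|n} J(d) = n^σ` for squarefree `n`). So the sum is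
`∑_{d ≤ Y, squarefree} J(d) (∑_{d | l} μ(l) G(l)/l^σ)²`, and `l = d k` with `(k,d)=1`:
`∑_{d|l} μ(l)G(l)/l^σ = μ(d)/d^σ ∑_{(k,d)=1} (μ(k)/k) [k^(1-σ) G(dk)]`; the function
`k ↦ k^(1-σ) G(dk)` changes by at most `(Λ + (σ-1))/k` from `k` to `k+1` and vanishes for `k > Y`, so
by LIP this is at most `C (Λ+σ-1) (d/φ(d)) / d^σ` in absolute value. Sum:
`∑_d d^σ d^(-2σ) (d/φ(d))² C² (Λ+σ-1)² ≤ C² (Λ+σ-1)² ∑ μ²(d) d/φ(d)²`, by PHI2. -/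
def S_QF : Prop := ∃ C : ℝ, 0 < C ∧ ∀ (Y : ℕ) (σ Λ : ℝ) (G : ℕ → ℝ), 1 ≤ Y → 1 ≤ σ → σ ≤ 2 → 0 ≤ Λ →
  (∀ l : ℕ, Y < l → G l = 0) → (∀ l : ℕ, |G l| ≤ 1) →
  (∀ d k : ℕ, 1 ≤ d → 1 ≤ k → |G (d * (k + 1)) - G (d * k)| ≤ Λ / k) →
  ∑ l₁ ∈ Icc 1 Y, ∑ l₂ ∈ Icc 1 Y, mu l₁ * mu l₂ * G l₁ * G l₂ / ((Nat.lcm l₁ l₂ : ℕ) : ℝ) ^ σ ≤
    C * (Λ + (σ - 1)) ^ 2 * (1 + Real.log Y)

/-- the weights of the mollifier, `l ≤ Y` -/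
noncomputable def PL (Y : ℝ) (l : ℕ) : ℝ := max 0 (1 - Real.log l / Real.log Y)

/-- the coefficients of the mollified sum with the profile `h` -/
noncomputable def DD (Y : ℝ) (h : ℝ → ℝ) (n : ℕ) : ℝ :=
  ∑ l ∈ n.divisors, mu l * PL Y l * h (Real.log ((n : ℝ) / l))

/-- DIAG (from QF). With `L_i = log l_i`, `l_i ≤ Y` (`PL Y l = 0` for `l ≥ Y`), `e = lcm(l₁,l₂) ≤ Y²`,
`g(t) = h(t-L₁) h(t-L₂)` (`|g| ≤ 1`, `|g(s)-g(t)| ≤ (2/U)|s-t|`, `g(t) = 0` for `t ≥ B + log Y`), the sum is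
(terms are `≥ 0`, so `N` may be increased until `N ≥ exp(|B|+log Y)`)
`∑_{l₁,l₂} μ(l₁)μ(l₂)P(l₁)P(l₂) ∑_{k : x₁ < ek ≤ N} g(log(ek))/(ek)`. Comparison with the integral:
`|∑_{k : ek > x₁} g(log ek)/(ek) - (1/e) ∫_{log x₁}^{∞} g(t) dt| ≤ 6/x₁`: for `k ≥ k₀ = ⌊x₁/e⌋+1`,
`|∫_{log ek}^{log e(k+1)} g - g(log ek) log(1+1/k)| ≤ (2/U)/k²`, `|log(1+1/k) - 1/k| ≤ 1/(2k²)`,
`∑_{k ≥ k₀} 1/k² ≤ 2/k₀ ≤ 2e/x₁`, and `∫_{log x₁}^{log e k₀} |g| ≤ log(e k₀/x₁) ≤ e/x₁`.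
Total error `≤ 6 Y²/x₁ ≤ 6`. The main term is `∫_{log x₁}^{|B|+log Y} (∑_{l₁,l₂} μμ G_t(l₁) G_t(l₂)/lcm) dt`,
`G_t(l) = P(l) h(t - log l)`, which satisfies the hypotheses of QF with `σ = 1`,
`Λ = 1/log Y + 1/U` (`|P(d(k+1)) - P(dk)| ≤ (1/log Y)/k`), so it is at most
`(|B| + log Y) C (1/log Y + 1/U)² (1 + log Y)`. -/
def S_DIAG : Prop := ∃ C : ℝ, 0 < C ∧ ∀ (Y x₁ B U : ℝ) (h : ℝ → ℝ), 2 ≤ Y → Y ^ 3 ≤ x₁ → 1 ≤ U →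
  (∀ t, |h t| ≤ 1) → (∀ s t, |h s - h t| ≤ |s - t| / U) → (∀ t, B ≤ t → h t = 0) → ∀ N : ℕ,
  ∑ n ∈ (Icc 1 N).filter (fun n : ℕ => x₁ < (n : ℝ)), DD Y h n ^ 2 / n ≤
    C * ((|B| + Real.log Y) * (1 / Real.log Y + 1 / U) ^ 2 * (1 + Real.log Y) + 1)

/-- BOT (from QF). Rankin's trick: with `κ = 1/log x₁`, `σ = 1 + κ`, for `n ≤ x₁` one has
`1/n ≤ e n^(-σ)`, so the sum is at most
`e ∑_{n ≥ 1} n^(-σ) (∑_{l|n} μ(l)P(l))² = e ζ(σ) ∑_{l₁,l₂ ≤ Y} μμPP/lcm^σ`, `ζ(σ) ≤ 1 + 1/κ`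
(the sum over all multiples `n = lcm · k`), and QF with `G = P`, `Λ = 1/log Y`. -/
def S_BOT : Prop := ∃ C : ℝ, 0 < C ∧ ∀ (Y x₁ : ℝ), 2 ≤ Y → 3 ≤ x₁ →
  ∑ n ∈ Icc 1 ⌊x₁⌋₊, (∑ l ∈ n.divisors, mu l * PL Y l) ^ 2 / n ≤
    C * (1 + Real.log x₁) * (1 / Real.log Y + 1 / Real.log x₁) ^ 2 * (1 + Real.log Y)

/-- the cutoff `V(y) = Γ(1/4)⁻¹ ∫_{πy}^∞ x^(-3/4) e^(-x) dx` -/
noncomputable def V (y : ℝ) : ℝ :=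
  (∫ x in Set.Ioi (Real.pi * y), x ^ (-(3 / 4) : ℝ) * Real.exp (-x)) / Real.Gamma (1 / 4)

/-- AFE0. The exact approximate functional equation for even primitive characters.
Proof. `θ(x,ψ) = ∑_{n ∈ ℤ} ψ(n) exp(-π n² x/q) = 2 ∑_{n ≥ 1}`, `θ(1/x,ψ) = ε(ψ) √x θ(x, ψ̄)`,
`ε(ψ) = rootNumber ψ = τ(ψ)/√q` (Poisson / Mathlib's Jacobi theta / HurwitzZeta.evenKernel,
`cosKernel` and the Gauss sums; Mathlib's `StrongFEPair` with `k = 1/2` gives the entire function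
`Λ(s) = mellin θ(·,ψ) s`). For `re s > 1`: `mellin θ(·,ψ) (s/2) = 2 (q/π)^(s/2) Γ(s/2) L(s,ψ)`, so by
the identity theorem at `s = 1/2`: `2 (q/π)^(1/4) Γ(1/4) L(1/2,ψ) = ∫_0^∞ θ(x,ψ) x^(1/4) dx/x`
`= ∫_X^∞ θ(x,ψ) x^(1/4) dx/x + ε(ψ) ∫_{1/X}^∞ θ(x,ψ̄) x^(1/4) dx/x`, and termwise
`∫_X^∞ 2 exp(-π n² x/q) x^(1/4) dx/x = 2 (π n²/q)^(-1/4) ∫_{π n² X/q}^∞ u^(-3/4) e^(-u) du`. -/
def S_AFE0 : Prop := ∀ (q : ℕ) [NeZero q], 2 ≤ q → ∀ ψ : DirichletCharacter ℂ q, ψ.IsPrimitive →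
  ψ.Even → ∀ X : ℝ, 0 < X →
  Summable (fun n : ℕ => ‖ψ (n : ZMod q)‖ * (V ((n : ℝ) ^ 2 * X / q) / Real.sqrt n)) ∧
  ψ.LFunction (1 / 2) =
    ∑' n : ℕ, ψ (n : ZMod q) * ((V ((n : ℝ) ^ 2 * X / q) / Real.sqrt n : ℝ) : ℂ) +
    ψ.rootNumber * ∑' n : ℕ, (starRingEnd ℂ) (ψ (n : ZMod q)) *
      ((V ((n : ℝ) ^ 2 / (X * q)) / Real.sqrt n : ℝ) : ℂ)

/-- AFE (from AFE0). Average AFE0 over `X = e^u`, `u` uniform in `[-U, U]`: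
`w(t) = (1/2U) ∫_{-U}^{U} V(e^(2t+u)/q) du` (the same `w` in both sums, by `u ↦ -u`). `V` is
decreasing, `0 ≤ V ≤ 1` on `[0,∞)` (`V(0) = 1`). `w(s) - w(t)`: substitute `v = 2t+u`, so
`w(t) = (1/2U) ∫_{2t-U}^{2t+U} V(e^v/q) dv`, thus `|w(s)-w(t)| ≤ (1/2U) · 2|s-t|` (difference of two
integrals over translated intervals, each of the two pieces of length `2|s-t|` with the integrand in
`[0,1]`, opposite signs). `1 - V(y) = Γ(1/4)⁻¹ ∫_0^{πy} ≤ 4 (πy)^(1/4)/Γ(1/4) ≤ 2 y^(1/4)`.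
`V(y) ≤ 2 e^(-y)`: for `y ≤ 1/2` because `V ≤ 1`; for `y ≥ 1/2`, `V(y) ≤ (πy)^(-3/4) e^(-πy)/Γ(1/4)`.
Interchange of `∑'` and the average by the bounds. -/
def S_AFE : Prop := ∀ (q : ℕ) [NeZero q], 2 ≤ q → ∀ U : ℝ, 1 ≤ U → ∃ w : ℝ → ℝ,
  (∀ t, 0 ≤ w t ∧ w t ≤ 1) ∧ (∀ s t, |w s - w t| ≤ |s - t| / U) ∧
  (∀ t, 1 - w t ≤ 2 * (Real.exp (2 * t + U) / q) ^ (1 / 4 : ℝ)) ∧
  (∀ t, w t ≤ 2 * Real.exp (-(Real.exp (2 * t - U) / q))) ∧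
  ∀ ψ : DirichletCharacter ℂ q, ψ.IsPrimitive → ψ.Even →
    ψ.LFunction (1 / 2) =
      ∑' n : ℕ, ψ (n : ZMod q) * ((w (Real.log n) / Real.sqrt n : ℝ) : ℂ) +
      ψ.rootNumber * ∑' n : ℕ, (starRingEnd ℂ) (ψ (n : ZMod q)) *
        ((w (Real.log n) / Real.sqrt n : ℝ) : ℂ)

/-- ROOT. The Gauss sums in a coset, `2m ≤ ν`. Proof. `τ(χθ) = ∑_x χ(x)θ(x) e(x/q)`. Substitute
`x → x (1 + p^(ν-m) t)`, `t` mod `p^m`: `θ(1 + p^(ν-m) t) = 1` as `ν-m ≥ m`;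
`χ(1 + p^(ν-m) t)` is an additive character of `t` mod `p^m` as `2(ν-m) ≥ ν`, so it is
`e(a t/p^m)`, and `p ∤ a` because `χ` is primitive; `e(x(1+p^(ν-m)t)/q) = e(x/q) e(xt/p^m)`. The average over
`t` shows that only `x ≡ -a mod p^m` contribute, and `θ(x) = θ(-a)` for these. So `b = -a`. -/
def S_ROOT : Prop := ∀ (p ν m : ℕ) [NeZero (p ^ ν)] (hmν : m ≤ ν), p.Prime → p ≠ 2 → 1 ≤ m →
  2 * m ≤ ν → ∀ χ : DirichletCharacter ℂ (p ^ ν), χ.IsPrimitive →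
  ∃ b : ℤ, ¬ (p : ℤ) ∣ b ∧ ∀ θ : DirichletCharacter ℂ (p ^ m),
    gaussSum (χ * DirichletCharacter.changeLevel (pow_dvd_pow p hmν) θ) ZMod.stdAddChar =
      θ (b : ZMod (p ^ m)) * gaussSum χ ZMod.stdAddChar

/-- TAIL. For each `l` the `n` in the sum lie in one residue class mod `P` and are `≥ P/(2Y)`: the
smallest one contributes at most `√(2Y/P)`, the `j`-th next one at most `1/√(jP)`, `j ≤ N/P`. -/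
def S_TAIL : Prop := ∀ (Y P N : ℕ) (u : ℕ → ℤ), 1 ≤ Y → 1 ≤ P →
  ∑ l ∈ Icc 1 Y, ∑ n ∈ (Icc 1 N).filter (fun n : ℕ => P ≤ 2 * Y * n ∧ (P : ℤ) ∣ (n : ℤ) - u l),
    1 / Real.sqrt ((n : ℝ) * l) ≤ 4 * Y * (Real.sqrt ((Y : ℝ) / P) + Real.sqrt N / P)

/-- DUAL (from LIP, TAIL). Let `P = p^m`, `T` = the pairs `(n,l)` of the sum. The pairs with
`P ≤ 2Yn` contribute at most the bound of TAIL. If there are pairs with `2Yn < P` and `p ∤ n l`, take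
one and divide by the gcd: `(n₀,l₀)` coprime with `n₀ ≡ u l₀ mod P`. Every other such pair has
`n l₀ ≡ u l l₀ ≡ l n₀`, and `|n l₀ - l n₀| < P`, so `n l₀ = l n₀`, i.e. `(n,l) = (k n₀, k l₀)`.
If `2 Y² n₀ ≥ P` they contribute at most `∑_k (k² n₀ l₀)^(-1/2) ≤ (2Y²/P)^(1/2) (1+log Y)`.
Otherwise all `k` with `k l₀ ≤ Y` occur (here `P ≤ N` is used), `conj χ(k n₀) χ(k l₀) = conj χ(n₀) χ(l₀)` for `p ∤ k`, and the sum is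
`conj χ(n₀) χ(l₀) (n₀l₀)^(-1/2) μ(l₀) ∑_{(k, p l₀) = 1} (μ(k)/k) G(k)`, `G(k) = w(log(k n₀)) P(k l₀)`, with
`|G(k+1)-G(k)| ≤ (1/U + 1/log Y)/k` (extend `G` by its values; it vanishes for `k l₀ ≥ Y`); LIP with
`d = p l₀`, and `(1/√l₀) l₀/φ(l₀) · p/(p-1) ≤ C`. -/
def S_DUAL : Prop := ∃ C : ℝ, 0 < C ∧ ∀ (p ν m N : ℕ) (Y U : ℝ) (u : ℤ) (w : ℝ → ℝ)
  (χ : DirichletCharacter ℂ (p ^ ν)), p.Prime → 1 ≤ m → m ≤ ν → p ^ m ≤ N → ¬ (p : ℤ) ∣ u →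
  2 ≤ Y → 1 ≤ U →
  (∀ t, |w t| ≤ 1) → (∀ s t, |w s - w t| ≤ |s - t| / U) →
  ‖∑ l ∈ Icc 1 ⌊Y⌋₊, ∑ n ∈ (Icc 1 N).filter (fun n : ℕ => ((p ^ m : ℕ) : ℤ) ∣ (n : ℤ) - u * l),
    (starRingEnd ℂ) (χ (n : ZMod (p ^ ν))) * χ (l : ZMod (p ^ ν)) *
      ((mu l * PL Y l * w (Real.log n) / Real.sqrt ((n : ℝ) * l) : ℝ) : ℂ)‖ ≤
    C * (1 / Real.log Y + 1 / U) +
      C * Y ^ 2 * (1 / Real.sqrt ((p : ℝ) ^ m) + Real.sqrt N / (p : ℝ) ^ m)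

end Pool.Agent.Run7.h343.PV
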