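import Pool.Agent.Run7.h343.PV.Iface

/-!
# Project PV, second part: off-diagonal terms, second moment, first moment

Same rules as in `Iface.lean`: `theorem t_XXX : S_XXX` (from the named hypotheses as arguments) in
`Pool/Agent/Run7/<you>/PV/XXX.lean`. `Incf.lean` has the bound `incf` for incomplete sums and
(through its imports) `Pool.Agent.Y766.R3.abel_le`, `Pool.Agent.Y766.R3.sum_range_mul'`;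
`Pool/Agent/Y766/R3/TD.lean` has the orthogonality lemma `orth`.
-/

set_option autoImplicit false

namespace Pool.Agent.Run7.h343.PV

open Finset Complex

/-- the twist `χ θ` -/
noncomputable def tw {p ν m : ℕ} (hmν : m ≤ ν) (χ : DirichletCharacter ℂ (p ^ ν))
    (θ : DirichletCharacter ℂ (p ^ m)) : DirichletCharacter ℂ (p ^ ν) :=
  χ * DirichletCharacter.changeLevel (pow_dvd_pow p hmν) θ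

/-- the mollifier -/
noncomputable def Mol (Y : ℝ) {q : ℕ} (ψ : DirichletCharacter ℂ q) : ℂ :=
  ∑ l ∈ Icc 1 ⌊Y⌋₊, ((mu l * PL Y l / Real.sqrt l : ℝ) : ℂ) * ψ (l : ZMod q)

/-- the sum with the profile `h` -/
noncomputable def AA (N : ℕ) (h : ℝ → ℝ) {q : ℕ} (ψ : DirichletCharacter ℂ q) : ℂ :=
  ∑ n ∈ Icc 1 N, ((h (Real.log n) / Real.sqrt n : ℝ) : ℂ) * ψ (n : ZMod q)

/-- the parameters: `q = p ^ ν = exp (20 J U)` -/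
noncomputable def UU (J p ν : ℕ) : ℝ := Real.log ((p : ℝ) ^ ν) / (20 * J)

/-- the length of the mollifier, `log Y = U` -/
noncomputable def YY (J p ν : ℕ) : ℝ := Real.exp (UU J p ν)

/-- the length of the sum -/
noncomputable def NN (J p ν : ℕ) : ℕ := ⌈Real.exp ((10 * J + 2) * UU J p ν)⌉₊

theorem tw_apply {p ν m : ℕ} (hmν : m ≤ ν) (χ : DirichletCharacter ℂ (p ^ ν))
    (θ : DirichletCharacter ℂ (p ^ m)) (n : ℤ) :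
    tw hmν χ θ (n : ZMod (p ^ ν)) = χ (n : ZMod (p ^ ν)) * θ (n : ZMod (p ^ m)) := by
  unfold tw
  rw [MulChar.mul_apply]
  by_cases hn : IsUnit (n : ZMod (p ^ ν))
  · rw [DirichletCharacter.changeLevel_eq_cast_of_dvd' θ (pow_dvd_pow p hmν)
      ((ZMod.coe_int_isUnit_iff_isCoprime n (p ^ ν)).1 hn).symm]
  · rw [MulChar.map_nonunit χ hn, zero_mul, zero_mul]

/-- the off-diagonal sum for `l₁, l₂` -/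
noncomputable def OD {p ν : ℕ} (χ : DirichletCharacter ℂ (p ^ ν)) (m : ℕ) (h : ℝ → ℝ) (N l₁ l₂ : ℕ) : ℂ :=
  ∑ n₁ ∈ Icc 1 N, ∑ n₂ ∈ Icc 1 N,
    if ((p ^ m : ℕ) : ℤ) ∣ (l₁ : ℤ) * n₁ - l₂ * n₂ ∧ l₁ * n₁ ≠ l₂ * n₂ then
      χ ((l₁ * n₁ : ℕ) : ZMod (p ^ ν)) * (starRingEnd ℂ) (χ ((l₂ * n₂ : ℕ) : ZMod (p ^ ν))) *
        ((h (Real.log n₁) / Real.sqrt n₁ * (h (Real.log n₂) / Real.sqrt n₂) : ℝ) : ℂ) else 0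

/-- OFF1. Hypotheses: none (`incf` in `Incf.lean` is proved). Let `D = p^m H`,
`g(t) = h(log (max t 1))/√(max t 1)`: `|g| ≤ 1/√x`, `g` is Lipschitz on `ℝ` with the constant
`(1+Λ)/x^(3/2)`, `g(t) = 0` for `t ≤ x` and for `t ≥ X`. There is `r < l₁` with `l₁ ∣ l₂ r + D`;
the sum is `∑_{k < K} FF χ D (l₁ l₂ k + l₂ r) g(n₁(k)) g(r + l₁ k)`, `n₁(k) = (l₂ r + D)/l₁ + l₂ k`,
`K = ⌊X⌋ + 1` (sum over `n₂`; `n₁` is determined, and the ranges take care of themselves as `g = 0`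
outside `(x, X)`; `n₂ = r + l₁ k` via `sum_range_mul'`). Abel summation (`abel_le`) with
`V = 2√p (2X √(..) + ..)` (`incf`), `S = 1/x`, `D = 2 Z (1+Λ)/x²`. -/
def S_OFF1 : Prop := ∀ (p ν m : ℕ) (χ : DirichletCharacter ℂ (p ^ ν)) (x X Λ Z : ℝ) (h : ℝ → ℝ)
  (l₁ l₂ N : ℕ) (H : ℤ), p.Prime → p ≠ 2 → 1 ≤ m → ν ≤ 3 * m → χ.IsPrimitive →
  1 < x → x ≤ X → X ≤ N → 0 ≤ Λ → (∀ t, |h t| ≤ 1) → (∀ s t, |h s - h t| ≤ Λ * |s - t|) →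
  (∀ t, t ≤ Real.log x → h t = 0) → (∀ t, Real.log X ≤ t → h t = 0) →
  1 ≤ l₁ → 1 ≤ l₂ → (l₁ : ℝ) ≤ Z → (l₂ : ℝ) ≤ Z → l₁.Coprime l₂ → l₁.Coprime p → l₂.Coprime p →
  H ≠ 0 → (p : ℝ) ^ m * |(H : ℝ)| < (p : ℝ) ^ (ν - 1) →
  ‖∑ n₁ ∈ Icc 1 N, ∑ n₂ ∈ Icc 1 N, if (l₁ : ℤ) * n₁ - l₂ * n₂ = (p : ℤ) ^ m * H then
      χ ((l₁ * n₁ : ℕ) : ZMod (p ^ ν)) * (starRingEnd ℂ) (χ ((l₂ * n₂ : ℕ) : ZMod (p ^ ν))) *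
        ((h (Real.log n₁) / Real.sqrt n₁ * (h (Real.log n₂) / Real.sqrt n₂) : ℝ) : ℂ) else 0‖ ≤
    10 * Real.sqrt p * Z * (1 + Λ) * (X / x ^ 2) *
      (2 * X * Real.sqrt ((p : ℝ) ^ m * |(H : ℝ)| / (p : ℝ) ^ ν) +
        Real.sqrt ((p : ℝ) ^ ν / (p : ℝ) ^ m) * (3 + Real.log ((p : ℝ) ^ ν)))

/-- OFF2 (from OFF1). With `g = gcd(l₁,l₂)`, `λᵢ = lᵢ/g`: `p ∤ g`, so `p^m ∣ l₁n₁ - l₂n₂` iff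
`λ₁n₁ - λ₂n₂ = p^m H`, `H ≠ 0`, and `χ(l₁n₁) conj χ(l₂n₂) = χ(λ₁n₁) conj χ(λ₂n₂)`. Where
`h(log n₁) h(log n₂) ≠ 0`, `nᵢ < X`, so `p^m |H| ≤ Z X`, at most `2 Z X/p^m` values of `H`. -/
def S_OFF2 : Prop := ∀ (p ν m : ℕ) (χ : DirichletCharacter ℂ (p ^ ν)) (x X Λ Z : ℝ) (h : ℝ → ℝ)
  (l₁ l₂ N : ℕ), p.Prime → p ≠ 2 → 1 ≤ m → ν ≤ 3 * m → χ.IsPrimitive →
  1 < x → x ≤ X → X ≤ N → 0 ≤ Λ → (∀ t, |h t| ≤ 1) → (∀ s t, |h s - h t| ≤ Λ * |s - t|) →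
  (∀ t, t ≤ Real.log x → h t = 0) → (∀ t, Real.log X ≤ t → h t = 0) →
  1 ≤ l₁ → 1 ≤ l₂ → (l₁ : ℝ) ≤ Z → (l₂ : ℝ) ≤ Z → l₁.Coprime p → l₂.Coprime p →
  Z * X < (p : ℝ) ^ (ν - 1) →
  ‖OD χ m h N l₁ l₂‖ ≤
    2 * (Z * X / (p : ℝ) ^ m) * (10 * Real.sqrt p * Z * (1 + Λ) * (X / x ^ 2) *
      (2 * X * Real.sqrt (Z * X / (p : ℝ) ^ ν) +
        Real.sqrt ((p : ℝ) ^ ν / (p : ℝ) ^ m) * (3 + Real.log ((p : ℝ) ^ ν))))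

/-- SM. Orthogonality (`Pool.Agent.Y766.R3.orth` in `Y766/R3/TD.lean`, to be repeated for a sum over pairs
`i = (l,n)`, `θ(l n)`, with the coefficients `χ(l n) μ(l) P(l) h(log n)/√(l n)`, or applied to the sum over
the products `k = l n`): the sum is `φ(p^m) ∑_{l₁n₁ ≡ l₂n₂ mod p^m}`. The terms with `l₁n₁ = l₂n₂ = n` give
`∑_{p ∤ n} DD(n)²/n` (`n ≤ ⌊Y⌋ N`; `h(log(n/l)) = 0` if `n/l > N`, `P(l) = 0` if `l ≥ Y`), the others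
`∑_{l₁,l₂} μμPP/√(l₁l₂) OD(l₁,l₂)`, and `∑_{l ≤ Y} 1/√l ≤ 2√Y`. -/
def S_SM : Prop := ∀ (p ν m : ℕ) (hmν : m ≤ ν) [NeZero (p ^ m)] (χ : DirichletCharacter ℂ (p ^ ν))
  (Y E : ℝ) (h : ℝ → ℝ) (N : ℕ), p.Prime → 1 ≤ m → 1 ≤ Y → 0 ≤ E → (∀ t, Real.log N < t → h t = 0) →
  (∀ l₁ l₂ : ℕ, 1 ≤ l₁ → 1 ≤ l₂ → (l₁ : ℝ) ≤ Y → (l₂ : ℝ) ≤ Y → l₁.Coprime p → l₂.Coprime p →
    ‖OD χ m h N l₁ l₂‖ ≤ E) →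
  ∑ θ : DirichletCharacter ℂ (p ^ m), ‖Mol Y (tw hmν χ θ) * AA N h (tw hmν χ θ)‖ ^ 2 ≤
    (p : ℝ) ^ m * (∑ n ∈ Icc 1 (⌊Y⌋₊ * N), DD Y h n ^ 2 / n + 4 * Y * E)

/-- SMH (from SM, OFF2, DIAG). `q = e^(20JU)`, `U = UU J p ν → ∞`, `Y = Z = e^U`, `x = e^((J+i-1)U)`,
`X = e^((J+i+1)U) ≤ e^((10J+2)U) ≤ N`, `p ≤ e^U` (if `ν ≥ 20J`), `Λ = 4/U`, `P = p^m ≥ e^((20/3+20δ)JU)`.
OFF2 gives `E ≤ 20(1+Λ) e^(6.5U) P⁻¹ (2 e^(U/2) X^(3/2)/√q + √(q/P)(3+20JU))`, where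
`X^(3/2)/(P√q) ≤ e^((3 - 5J/3)U)` and `√q/P^(3/2) ≤ e^(-30δJU)`. So `4YE ≤ 1` if `J ≥ 12`, `δJ ≥ 1`
and `ν` is large. DIAG with `x₁ = x`, `B = (J+i+1)U`, `U/4` (`DD Y h n = 0` for `n ≤ x`):
`(10J+3)U (5/U)² (1+U) + 1` is bounded. `ν ≤ 3m` follows from `q^(1/3+δ) ≤ P`. -/
def S_SMH : Prop := ∀ δ : ℝ, 0 < δ → ∃ J₀ : ℕ, ∀ J : ℕ, J₀ ≤ J → ∃ C : ℝ, 0 < C ∧ ∃ ν₀ : ℕ,
  ∀ (p ν m : ℕ) (hmν : m ≤ ν) [NeZero (p ^ m)] (χ : DirichletCharacter ℂ (p ^ ν)) (h : ℝ → ℝ) (i : ℕ),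
  p.Prime → p ≠ 2 → ν₀ ≤ ν → 2 * m ≤ ν → ((p : ℝ) ^ ν) ^ (1 / 3 + δ) ≤ (p : ℝ) ^ m → χ.IsPrimitive →
  1 ≤ i → i ≤ 9 * J + 1 → (∀ t, |h t| ≤ 1) → (∀ s t, |h s - h t| ≤ 4 * |s - t| / UU J p ν) →
  (∀ t, t ≤ (J + i - 1) * UU J p ν → h t = 0) → (∀ t, (J + i + 1) * UU J p ν ≤ t → h t = 0) →
  ∑ θ : DirichletCharacter ℂ (p ^ m),
    ‖Mol (YY J p ν) (tw hmν χ θ) * AA (NN J p ν) h (tw hmν χ θ)‖ ^ 2 ≤ C * (p : ℝ) ^ m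

/-- SMB (from SM, DIAG, BOT). Here `OD = 0` (`E = 0`): the terms have `lᵢ nᵢ ≤ e^U e^((J+1)U) < e^((20/3)JU) ≤ p^m`,
so `l₁n₁ ≡ l₂n₂` implies equality. For `n > x₁ = e^(JU)` use DIAG (with `U/4`, `B = (J+1)U`). For `n ≤ x₁`,
`|DD Y h n - ∑_{l∣n} μ(l)P(l)| ≤ n · 2 e^((2J+1-20J)U/4) ≤ 2 e^(-3JU)`, so `DD² ≤ 2 (∑ μP)² + 8 e^(-6JU)`,
and BOT with `log x₁ = JU`, `log Y = U`. -/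
def S_SMB : Prop := ∀ J : ℕ, 3 ≤ J → ∃ C : ℝ, 0 < C ∧ ∃ ν₀ : ℕ,
  ∀ (p ν m : ℕ) (hmν : m ≤ ν) [NeZero (p ^ m)] (χ : DirichletCharacter ℂ (p ^ ν)) (h : ℝ → ℝ),
  p.Prime → ν₀ ≤ ν → 1 ≤ m → ((p : ℝ) ^ ν) ^ (1 / 3 : ℝ) ≤ (p : ℝ) ^ m →
  (∀ t, |h t| ≤ 1) → (∀ s t, |h s - h t| ≤ 4 * |s - t| / UU J p ν) →
  (∀ t, t ≤ J * UU J p ν →
    |1 - h t| ≤ 2 * (Real.exp (2 * t + UU J p ν) / (p : ℝ) ^ ν) ^ (1 / 4 : ℝ)) →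
  (∀ t, (J + 1) * UU J p ν ≤ t → h t = 0) →
  ∑ θ : DirichletCharacter ℂ (p ^ m),
    ‖Mol (YY J p ν) (tw hmν χ θ) * AA (NN J p ν) h (tw hmν χ θ)‖ ^ 2 ≤ C * (p : ℝ) ^ m

/-- SEC (from SMH, SMB). With the clamp `c(y) = min 1 (max 0 y)` let `φ₀(t) = c(J+1-t/U)`,
`φᵢ(t) = c(J+1+i-t/U) - c(J+i-t/U)`, `1 ≤ i ≤ K = 9J+1` (hats, supported in `(J+i-1)U ≤ t ≤ (J+i+1)U`,
values in `[0,1]`); `∑ φᵢ = c(10J+2-t/U)` (telescoping). `w = ∑ w φᵢ + w (1 - c(10J+2-t/U))`; `w φᵢ`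
satisfy the hypotheses of SMH (`i ≥ 1`) and SMB (`i = 0`); the last function is `0` for
`t ≤ (10J+1)U` and at most `2 exp(-e^U)` for `t ≥ (10J+1)U`, so its contribution to `|Mol · AA|` is at most
`Y · N · 2 exp(-e^U)`, bounded. `|∑_{i ≤ K+1} z_i|² ≤ (K+2) ∑ |z_i|²`. -/
def S_SEC : Prop := ∀ δ : ℝ, 0 < δ → ∃ J₀ : ℕ, ∀ J : ℕ, J₀ ≤ J → ∃ C : ℝ, 0 < C ∧ ∃ ν₀ : ℕ,
  ∀ (p ν m : ℕ) (hmν : m ≤ ν) [NeZero (p ^ m)] (χ : DirichletCharacter ℂ (p ^ ν)) (w : ℝ → ℝ),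
  p.Prime → p ≠ 2 → ν₀ ≤ ν → 2 * m ≤ ν → ((p : ℝ) ^ ν) ^ (1 / 3 + δ) ≤ (p : ℝ) ^ m → χ.IsPrimitive →
  (∀ t, 0 ≤ w t ∧ w t ≤ 1) → (∀ s t, |w s - w t| ≤ |s - t| / UU J p ν) →
  (∀ t, 1 - w t ≤ 2 * (Real.exp (2 * t + UU J p ν) / (p : ℝ) ^ ν) ^ (1 / 4 : ℝ)) →
  (∀ t, w t ≤ 2 * Real.exp (-(Real.exp (2 * t - UU J p ν) / (p : ℝ) ^ ν))) →
  ∑ θ : DirichletCharacter ℂ (p ^ m),
    ‖Mol (YY J p ν) (tw hmν χ θ) * AA (NN J p ν) w (tw hmν χ θ)‖ ^ 2 ≤ C * (p : ℝ) ^ m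

/-- WT. For `n > N ≥ e^((10J+2)U)`: `w(log n) ≤ 2 exp(-y) ≤ 2 k!/y^k`, `y = n² e^(-(20J+1)U)`, `k = 20J+4`;
`∑_{n>N} n^(-2k) ≤ N^(2-2k) ∑ n^(-2)`; total at most `4 k! exp(U(20J+4-3k)) ≤ 4 k! e^(-20JU)`. -/
def S_WT : Prop := ∀ J : ℕ, 1 ≤ J → ∃ C : ℝ, 0 < C ∧ ∀ (p ν : ℕ) (w : ℝ → ℝ) (a : ℕ → ℂ), p.Prime →
  1 ≤ UU J p ν → (∀ t, 0 ≤ w t ∧ w t ≤ 1) →
  (∀ t, w t ≤ 2 * Real.exp (-(Real.exp (2 * t - UU J p ν) / (p : ℝ) ^ ν))) → (∀ n, ‖a n‖ ≤ 1) →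
  ‖∑' n : ℕ, a n * ((w (Real.log n) / Real.sqrt n : ℝ) : ℂ) -
    ∑ n ∈ Icc 1 (NN J p ν), ((w (Real.log n) / Real.sqrt n : ℝ) : ℂ) * a n‖ ≤ C / (p : ℝ) ^ ν

/-- FM1 (from TAIL). `∑_θ (1 + χθ(-1)) χθ(k) = φ(p^m) (χ(k)[k ≡ 1] + χ(-k)[-k ≡ 1])`, `k = l n`. The term
`l = n = 1` is `φ(p^m) w(0)` (`PL Y 1 = 1`); the others have `p ∤ l`, `2 l n ≥ p^m` and
`n ≡ ± l⁻¹ mod p^m`: TAIL twice (with `⌊Y⌋`, `u l` an inverse of `l`, and `-u l`). -/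
def S_FM1 : Prop := ∀ (p ν m N : ℕ) (hmν : m ≤ ν) [NeZero (p ^ m)] (χ : DirichletCharacter ℂ (p ^ ν))
  (Y : ℝ) (w : ℝ → ℝ), p.Prime → p ≠ 2 → 1 ≤ m → 1 ≤ Y → 1 ≤ N → (∀ t, |w t| ≤ 1) →
  ‖∑ θ : DirichletCharacter ℂ (p ^ m), (1 + tw hmν χ θ (-1)) *
      (Mol Y (tw hmν χ θ) * AA N w (tw hmν χ θ)) -
    ((Nat.totient (p ^ m) : ℕ) : ℂ) * ((w 0 : ℝ) : ℂ)‖ ≤
    Nat.totient (p ^ m) * (8 * Y * (Real.sqrt (Y / (p : ℝ) ^ m) + Real.sqrt N / (p : ℝ) ^ m))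

/-- FM2 (from DUAL). `∑_θ (1 + χθ(-1)) θ(b) θ(l) conj θ(n) = φ(p^m) ([n ≡ b l] + χ(-1) [n ≡ -b l])` for
`p ∤ l n`; DUAL twice, with `u = b` and `u = -b`. -/
def S_FM2 : Prop := ∃ C : ℝ, 0 < C ∧ ∀ (p ν m N : ℕ) (hmν : m ≤ ν) [NeZero (p ^ m)]
  (χ : DirichletCharacter ℂ (p ^ ν)) (Y U : ℝ) (b : ℤ) (w : ℝ → ℝ),
  p.Prime → 1 ≤ m → p ^ m ≤ N → ¬ (p : ℤ) ∣ b → 2 ≤ Y → 1 ≤ U → (∀ t, |w t| ≤ 1) →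
  (∀ s t, |w s - w t| ≤ |s - t| / U) →
  ‖∑ θ : DirichletCharacter ℂ (p ^ m), (1 + tw hmν χ θ (-1)) * (θ (b : ZMod (p ^ m)) *
      (Mol Y (tw hmν χ θ) * (starRingEnd ℂ) (AA N w (tw hmν χ θ))))‖ ≤
    Nat.totient (p ^ m) * (C * (1 / Real.log Y + 1 / U) +
      C * Y ^ 2 * (1 / Real.sqrt ((p : ℝ) ^ m) + Real.sqrt N / (p : ℝ) ^ m))

end Pool.Agent.Run7.h343.PV
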