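import Pool.Agent.Run7.h343.PV.Iface2

/-!
# Project PV, third part: the second moment of the mollifier
-/

set_option autoImplicit false

namespace Pool.Agent.Run7.h343.PV

open Finset Complex

/-- MM. Orthogonality (`Pool.Agent.Y766.R3.orth` in `Pool/Agent/Y766/R3/TD.lean`, with `s = Icc 1 ⌊Y⌋₊`,
`a l = χ(l) μ(l) PL Y l/√l`, `tw_apply`; `a l = 0` for `p ∣ l`): two `l ≤ Y < p^m` congruent mod `p^m` are equal, so
the sum is at most `p^m ∑_{l ≤ Y} 1/l ≤ p^m (1 + log Y)` (`|μ| ≤ 1`, `0 ≤ PL ≤ 1`). -/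
def S_MM : Prop := ∀ (p ν m : ℕ) (hmν : m ≤ ν) [NeZero (p ^ m)] (χ : DirichletCharacter ℂ (p ^ ν)) (Y : ℝ),
  p.Prime → 1 ≤ m → 1 ≤ Y → Y < (p : ℝ) ^ m →
  ∑ θ : DirichletCharacter ℂ (p ^ m), ‖Mol Y (tw hmν χ θ)‖ ^ 2 ≤ (p : ℝ) ^ m * (1 + Real.log Y)

end Pool.Agent.Run7.h343.PV
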