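import Pool.Agent.Y766.R3.TB
import Pool.Agent.Y317.R7.Cmp
import Pool.Agent.Y779.R3.Klo
import Pool.Agent.Y870.R3.Phi

/-!
Incomplete sums of `χ(n + P) conj χ(n)`, completion.
-/

set_option autoImplicit false

namespace Pool.Agent.Run7.h343.PV

open Finset
open Pool.Agent.Y766.R3 Pool.Agent.H442R2

lemma F_zmod {Q : ℕ} [NeZero Q] {F : ℤ → ℂ} (hF : ∀ n k : ℤ, F (n + Q * k) = F n) (n : ℤ) :
    F n = F (((n : ZMod Q).val : ℕ) : ℤ) := by
  rw [ZMod.val_intCast]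
  have h := hF (n % Q) (n / Q)
  rwa [Int.emod_add_mul_ediv] at h

lemma shift_sum {Q : ℕ} [NeZero Q] (F : ℤ → ℂ) (hF : ∀ n k : ℤ, F (n + Q * k) = F n) (a : ℤ) (b : ℕ) :
    ‖∑ k ∈ range Q, F (a + k) * eu ((b : ℝ) * k / Q)‖ = ‖FH Q F b‖ := by
  set F' : ZMod Q → ℂ := fun x => F ((x.val : ℕ) : ℤ) with hF'
  have e1 : ∑ k ∈ range Q, F (a + k) * eu ((b : ℝ) * k / Q) =
      ∑ x : ZMod Q, F' (x + (a : ZMod Q)) *
        (ZMod.stdAddChar : AddChar (ZMod Q) ℂ) ((b : ZMod Q) * x) := by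
    rw [← sum_range_zmod (fun x : ZMod Q => F' (x + (a : ZMod Q)) *
        (ZMod.stdAddChar : AddChar (ZMod Q) ℂ) ((b : ZMod Q) * x))]
    refine sum_congr rfl fun k _ => ?_
    rw [F_zmod hF (a + k)]
    have e2 : (b : ZMod Q) * ((k : ℕ) : ZMod Q) = (((b : ℤ) * (k : ℤ) : ℤ) : ZMod Q) := by
      push_cast; ring
    have e3 : ((k : ℕ) : ZMod Q) + (a : ZMod Q) = ((a + (k : ℤ) : ℤ) : ZMod Q) := by
      push_cast; ring
    rw [e2, eq_e, e3, eu_eq]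
    congr 2
    push_cast
    ring
  have e4 : FH Q F b = ∑ x : ZMod Q, F' x *
        (ZMod.stdAddChar : AddChar (ZMod Q) ℂ) ((b : ZMod Q) * x) := by
    unfold FH
    rw [← sum_range_zmod (fun x : ZMod Q => F' x *
        (ZMod.stdAddChar : AddChar (ZMod Q) ℂ) ((b : ZMod Q) * x))]
    refine sum_congr rfl fun k _ => ?_
    rw [F_zmod hF (k : ℤ)]
    have e2 : (b : ZMod Q) * ((k : ℕ) : ZMod Q) = (((b : ℤ) * (k : ℤ) : ℤ) : ZMod Q) := by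
      push_cast; ring
    have e3 : ((k : ℕ) : ZMod Q) = ((k : ℤ) : ZMod Q) := by push_cast; rfl
    rw [e2, eq_e, e3]
    congr 2
    push_cast
    ring
  rw [e1, e4]
  have e5 : ∑ x : ZMod Q, F' (x + (a : ZMod Q)) *
        (ZMod.stdAddChar : AddChar (ZMod Q) ℂ) ((b : ZMod Q) * x) =
      (ZMod.stdAddChar : AddChar (ZMod Q) ℂ) (-((b : ZMod Q) * a)) * ∑ x : ZMod Q, F' x *
        (ZMod.stdAddChar : AddChar (ZMod Q) ℂ) ((b : ZMod Q) * x) := by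
    rw [mul_sum, ← Equiv.sum_comp (Equiv.addRight (a : ZMod Q)) (fun x : ZMod Q =>
      (ZMod.stdAddChar : AddChar (ZMod Q) ℂ) (-((b : ZMod Q) * a)) * (F' x *
        (ZMod.stdAddChar : AddChar (ZMod Q) ℂ) ((b : ZMod Q) * x)))]
    refine sum_congr rfl fun x _ => ?_
    simp only [Equiv.coe_addRight]
    have e6 : (b : ZMod Q) * x = -((b : ZMod Q) * a) + (b : ZMod Q) * (x + a) := by ring
    rw [e6, AddChar.map_add_eq_mul]
    ring_nf
  rw [e5, norm_mul, AddChar.norm_apply, one_mul]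

lemma complete_le {Q : ℕ} [NeZero Q] (F : ℤ → ℂ) (hF : ∀ n k : ℤ, F (n + Q * k) = F n) {B : ℝ}
    (hB : ∀ j : ℤ, ‖FH Q F j‖ ≤ B) (a : ℤ) (N : ℕ) :
    ‖∑ k ∈ range N, F (a + k)‖ ≤ B * ((N : ℝ) / Q + 3 + Real.log Q) := by
  have hQ : 0 < Q := NeZero.pos Q
  have hQr : (0 : ℝ) < Q := by exact_mod_cast hQ
  have hB0 : 0 ≤ B := (norm_nonneg _).trans (hB 0)
  obtain ⟨ω, hω0, hω1, hω2⟩ := Pool.Agent.Y317.R7.Cmp.cmp Q hQ
  have hcast : ∀ b : ℕ, ∀ a : ℤ, ‖∑ k ∈ range Q, F (a + k) * eu ((b : ℝ) * k / Q)‖ ≤ B := by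
    intro b a
    rw [shift_sum F hF a b]
    exact hB _
  have hinc : ∀ a : ℤ, ∀ J ≤ Q, ‖∑ k ∈ range J, F (a + k)‖ ≤ B * (3 + Real.log Q) := by
    intro a J hJ
    refine (hω2 (fun k => F (a + k)) J hJ).trans ?_
    calc ∑ b ∈ range Q, ω b * ‖∑ k ∈ range Q, F (a + k) * eu ((b : ℝ) * k / Q)‖
        ≤ ∑ b ∈ range Q, ω b * B :=
          sum_le_sum fun b _ => mul_le_mul_of_nonneg_left (hcast b a) (hω0 b)
      _ = (∑ b ∈ range Q, ω b) * B := by rw [sum_mul]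
      _ ≤ (3 + Real.log Q) * B := mul_le_mul_of_nonneg_right hω1 hB0
      _ = _ := by ring
  have hfull : ∀ a : ℤ, ‖∑ k ∈ range Q, F (a + k)‖ ≤ B := by
    intro a
    have h := hcast 0 a
    have e : ∀ k : ℕ, eu (((0 : ℕ) : ℝ) * k / Q) = 1 := by
      intro k; unfold eu; simp
    refine (le_of_eq ?_).trans h
    congr 1
    refine sum_congr rfl fun k _ => ?_
    rw [e, mul_one]
  have hN : N = Q * (N / Q) + N % Q := (Nat.div_add_mod N Q).symm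
  have e1 : ∑ k ∈ range N, F (a + k) = ∑ i ∈ range (N / Q), ∑ h ∈ range Q, F ((a + (Q * i : ℕ)) + h) +
      ∑ j ∈ range (N % Q), F ((a + (Q * (N / Q) : ℕ)) + j) := by
    conv_lhs => rw [hN]
    rw [sum_range_add, sum_range_mul']
    congr 1
    · refine sum_congr rfl fun i _ => sum_congr rfl fun h _ => ?_
      congr 1; push_cast; ring
    · refine sum_congr rfl fun j _ => ?_
      congr 1; push_cast; ring
  rw [e1]
  have h1 : ‖∑ i ∈ range (N / Q), ∑ h ∈ range Q, F ((a + (Q * i : ℕ)) + h)‖ ≤ (N / Q : ℕ) * B := by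
    refine (norm_sum_le _ _).trans ?_
    refine (sum_le_sum fun i _ => hfull _).trans ?_
    rw [sum_const, card_range, nsmul_eq_mul]
  have h2 := hinc (a + (Q * (N / Q) : ℕ)) (N % Q) (Nat.mod_lt _ hQ).le
  have h3 : ((N / Q : ℕ) : ℝ) ≤ (N : ℝ) / Q := Nat.cast_div_le
  calc _ ≤ (N / Q : ℕ) * B + B * (3 + Real.log Q) := (norm_add_le _ _).trans (add_le_add h1 h2)
    _ ≤ (N : ℝ) / Q * B + B * (3 + Real.log Q) := by gcongr
    _ = _ := by ring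

/-- incomplete sums, `p ∤ l` -/
lemma inc_core {p ν m : ℕ} (hp : p.Prime) (hp2 : p ≠ 2) (hm : 1 ≤ m) (h3 : ν ≤ 3 * m)
    (hmν : m + 2 ≤ ν) {χ : DirichletCharacter ℂ (p ^ ν)} (hχ : χ.IsPrimitive) {l : ℤ}
    (hl : ¬ (p : ℤ) ∣ l) (a : ℤ) (N : ℕ) :
    ‖∑ k ∈ range N, FF χ ((p : ℤ) ^ m * l) (a + k)‖ ≤
      2 * (p : ℝ) ^ ((ν - m + 1) / 2) * ((N : ℝ) / (p ^ (ν - m) : ℕ) + 3 +
        Real.log ((p ^ (ν - m) : ℕ) : ℝ)) := by
  haveI : NeZero (p ^ (ν - m)) := ⟨pow_ne_zero _ hp.ne_zero⟩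
  obtain ⟨hper, Ψ, A, L, d, hΨ1, hΨ2, hA, hL, hFH⟩ :=
    get_data Pool.Agent.Y870.R3.phi (u := 0) hp hp2 hm (by omega) (by omega) (by omega) hχ hl
  obtain ⟨k1, -, -⟩ := Pool.Agent.Y779.R3.klo p (ν - m) 0 hp hp2 (by omega) (by omega) Ψ hΨ1 hΨ2
    A L hA hL
  refine complete_le _ ?_ ?_ a N
  · intro n k
    exact hper n k
  · intro j
    rw [hFH, norm_mul, KF.norm_e, one_mul]
    exact k1 j

/-- the sums of `χ(n + P) conj χ(n)` over progressions -/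
theorem incf {p ν m : ℕ} (hp : p.Prime) (hp2 : p ≠ 2) (hm : 1 ≤ m) (h3 : ν ≤ 3 * m)
    {χ : DirichletCharacter ℂ (p ^ ν)} (hχ : χ.IsPrimitive) {H : ℤ} (hH : H ≠ 0)
    (hPH : (p : ℝ) ^ m * |(H : ℝ)| < (p : ℝ) ^ (ν - 1)) {b : ℤ} (hb : ¬ (p : ℤ) ∣ b) (c : ℤ) (N : ℕ) :
    ‖∑ k ∈ range N, FF χ ((p : ℤ) ^ m * H) (b * k + c)‖ ≤
      2 * Real.sqrt p * ((N : ℝ) * Real.sqrt ((p : ℝ) ^ m * |(H : ℝ)| / (p : ℝ) ^ ν) +
        Real.sqrt ((p : ℝ) ^ ν / (p : ℝ) ^ m) * (3 + Real.log ((p : ℝ) ^ ν))) := by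
  have hp0 : (0 : ℝ) < p := by exact_mod_cast hp.pos
  have hp1 : (1 : ℝ) < p := by exact_mod_cast hp.one_lt
  have hpZ : Prime (p : ℤ) := Nat.prime_iff_prime_int.1 hp
  -- the inverse of `b`
  obtain ⟨bb, t, hbt⟩ : ∃ bb t : ℤ, bb * b + t * (p : ℤ) ^ ν = 1 :=
    (IsCoprime.pow_right ((hpZ.coprime_iff_not_dvd).2 hb).symm : IsCoprime b ((p : ℤ) ^ ν))
  have hbb : ¬ (p : ℤ) ∣ bb := by
    intro h
    have h1 : (p : ℤ) ∣ 1 := by
      rw [← hbt]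
      refine dvd_add (Dvd.dvd.mul_right h _) (Dvd.dvd.mul_left (dvd_pow_self _ ?_) _)
      rintro rfl
      have : (p : ℝ) ^ m * |(H : ℝ)| < 1 := by simpa using hPH
      have h2 : (1 : ℝ) ≤ (p : ℝ) ^ m := one_le_pow₀ hp1.le
      have h3 : (1 : ℝ) ≤ |(H : ℝ)| := by
        have := Int.one_le_abs hH
        exact_mod_cast this
      nlinarith
    exact hpZ.not_dvd_one h1
  have hzz : ((p : ZMod (p ^ ν)) ^ ν) = 0 := by
    have := ZMod.natCast_self (p ^ ν)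
    push_cast at this
    exact this
  have hbz : (bb : ZMod (p ^ ν)) * b = 1 := by
    have h1 := congrArg (fun z : ℤ => (z : ZMod (p ^ ν))) hbt
    push_cast at h1
    rw [hzz, mul_zero, add_zero] at h1
    exact h1
  -- the valuation of `H`
  obtain ⟨v, H', hH', hHv⟩ : ∃ (v : ℕ) (H' : ℤ), ¬ (p : ℤ) ∣ H' ∧ H = (p : ℤ) ^ v * H' := by
    have hfin : FiniteMultiplicity (p : ℤ) H := by
      refine Int.finiteMultiplicity_iff.2 ⟨?_, hH⟩
      simpa using hp.ne_one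
    obtain ⟨c', hc1, hc2⟩ := hfin.exists_eq_pow_mul_and_not_dvd
    exact ⟨_, c', hc2, hc1⟩
  have hH'1 : (1 : ℝ) ≤ |(H' : ℝ)| := by
    have h1 : H' ≠ 0 := by rintro rfl; exact hH' (dvd_zero _)
    have := Int.one_le_abs h1
    exact_mod_cast this
  have habs : |(H : ℝ)| = (p : ℝ) ^ v * |(H' : ℝ)| := by
    rw [hHv]; push_cast; rw [abs_mul, abs_of_pos (by positivity)]
  have hpv : (p : ℝ) ^ (m + v) ≤ (p : ℝ) ^ m * |(H : ℝ)| := by
    rw [habs, pow_add]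
    have : (0 : ℝ) < (p : ℝ) ^ m * (p : ℝ) ^ v := by positivity
    nlinarith
  have hmv : m + v < ν - 1 := (pow_lt_pow_iff_right₀ hp1).1 (hpv.trans_lt hPH)
  have hνm : m + v + 2 ≤ ν := by omega
  have key := inc_core hp hp2 (m := m + v) (by omega) (by omega) hνm hχ (l := bb * H')
    (by intro h; rcases hpZ.dvd_or_dvd h with h | h; exacts [hbb h, hH' h]) (bb * c) N
  -- reduction
  have e1 : ∀ k : ℕ, FF χ ((p : ℤ) ^ m * H) (b * k + c) =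
      FF χ ((p : ℤ) ^ (m + v) * (bb * H')) (bb * c + k) := by
    intro k
    unfold FF
    have hχb : χ (b : ZMod (p ^ ν)) * (starRingEnd ℂ) (χ (b : ZMod (p ^ ν))) = 1 := by
      have hu : IsUnit (b : ZMod (p ^ ν)) := IsUnit.of_mul_eq_one _ (by rw [mul_comm]; exact hbz)
      have := χ.unit_norm_eq_one hu.unit
      rw [IsUnit.unit_spec] at this
      rw [Complex.mul_conj', this]; norm_num
    have h1 : ((b * k + c + (p : ℤ) ^ m * H : ℤ) : ZMod (p ^ ν)) =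
        (b : ZMod (p ^ ν)) * ((bb * c + k + (p : ℤ) ^ (m + v) * (bb * H') : ℤ) : ZMod (p ^ ν)) := by
      rw [hHv]
      push_cast
      have : (b : ZMod (p ^ ν)) * (bb * c + k + (p : ZMod (p ^ ν)) ^ (m + v) * (bb * H')) =
        b * k + (bb * b) * c + (bb * b) * (p ^ (m + v) * H') := by ring
      rw [this, hbz, pow_add]
      ring
    have h2 : ((b * k + c : ℤ) : ZMod (p ^ ν)) =
        (b : ZMod (p ^ ν)) * ((bb * c + k : ℤ) : ZMod (p ^ ν)) := by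
      push_cast
      have : (b : ZMod (p ^ ν)) * (bb * c + k) = b * k + (bb * b) * c := by ring
      rw [this, hbz]
      ring
    rw [h1, h2, map_mul, map_mul, map_mul]
    calc _ = (χ (b : ZMod (p ^ ν)) * (starRingEnd ℂ) (χ (b : ZMod (p ^ ν)))) *
          (χ ((bb * c + k + (p : ℤ) ^ (m + v) * (bb * H') : ℤ) : ZMod (p ^ ν)) *
            (starRingEnd ℂ) (χ ((bb * c + k : ℤ) : ZMod (p ^ ν)))) := by ring
      _ = _ := by rw [hχb, one_mul]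
  rw [sum_congr rfl fun k _ => e1 k]
  refine key.trans ?_
  set r := ν - (m + v) with hr
  have hr2 : ν = m + v + r := by omega
  -- `p^((r+1)/2) ≤ √p √(p^r)`
  have hpow : (p : ℝ) ^ ((r + 1) / 2) ≤ Real.sqrt p * Real.sqrt ((p : ℝ) ^ r) := by
    rw [← Real.sqrt_mul hp0.le, ← pow_succ']
    apply Real.le_sqrt_of_sq_le
    rw [← pow_mul]
    exact pow_le_pow_right₀ hp1.le (by omega)
  have hsr : (0 : ℝ) < Real.sqrt ((p : ℝ) ^ r) := Real.sqrt_pos.2 (by positivity)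
  have hlog : Real.log ((p ^ r : ℕ) : ℝ) ≤ Real.log ((p : ℝ) ^ ν) := by
    push_cast
    apply Real.log_le_log (by positivity)
    exact pow_le_pow_right₀ hp1.le (by omega)
  have hlog0 : 0 ≤ Real.log ((p ^ r : ℕ) : ℝ) := by
    apply Real.log_nonneg
    push_cast
    exact one_le_pow₀ hp1.le
  -- the first part
  have hA : Real.sqrt ((p : ℝ) ^ r) * ((N : ℝ) / (p ^ r : ℕ)) ≤
      (N : ℝ) * Real.sqrt ((p : ℝ) ^ m * |(H : ℝ)| / (p : ℝ) ^ ν) := by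
    have h1 : Real.sqrt ((p : ℝ) ^ r) * ((N : ℝ) / (p ^ r : ℕ)) = (N : ℝ) * Real.sqrt (1 / (p : ℝ) ^ r) := by
      push_cast
      rw [Real.sqrt_div zero_le_one, Real.sqrt_one]
      have h2 : (p : ℝ) ^ r = Real.sqrt ((p : ℝ) ^ r) * Real.sqrt ((p : ℝ) ^ r) :=
        (Real.mul_self_sqrt (by positivity)).symm
      have h3 : (N : ℝ) / (p : ℝ) ^ r = (N : ℝ) / (Real.sqrt ((p : ℝ) ^ r) * Real.sqrt ((p : ℝ) ^ r)) := by
        rw [← h2]
      rw [h3]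
      field_simp
    rw [h1]
    refine mul_le_mul_of_nonneg_left (Real.sqrt_le_sqrt ?_) (Nat.cast_nonneg _)
    rw [hr2, pow_add, div_le_div_iff₀ (by positivity) (by positivity), one_mul]
    exact mul_le_mul_of_nonneg_right hpv (by positivity)
  have hB : Real.sqrt ((p : ℝ) ^ r) ≤ Real.sqrt ((p : ℝ) ^ ν / (p : ℝ) ^ m) := by
    apply Real.sqrt_le_sqrt
    rw [le_div_iff₀ (by positivity), ← pow_add]
    exact pow_le_pow_right₀ hp1.le (by omega)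
  calc 2 * (p : ℝ) ^ ((r + 1) / 2) * ((N : ℝ) / (p ^ r : ℕ) + 3 + Real.log ((p ^ r : ℕ) : ℝ))
      ≤ 2 * (Real.sqrt p * Real.sqrt ((p : ℝ) ^ r)) * ((N : ℝ) / (p ^ r : ℕ) + 3 +
          Real.log ((p ^ r : ℕ) : ℝ)) := by gcongr
    _ = 2 * Real.sqrt p * (Real.sqrt ((p : ℝ) ^ r) * ((N : ℝ) / (p ^ r : ℕ)) +
          Real.sqrt ((p : ℝ) ^ r) * (3 + Real.log ((p ^ r : ℕ) : ℝ))) := by ring
    _ ≤ _ := by gcongr

end Pool.Agent.Run7.h343.PV
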