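import Pool.Agent.Run7.h343.PV.All
import Pool.Agent.Run7.h343.PV.FinD
import Pool.Agent.Run7.h136.PV.FM1D
import Pool.Agent.Run7.h957.PV.FM2D

/-!
# Project PV: subgroups of index `d`, the final statement
-/

set_option autoImplicit false

namespace Pool.Agent.Run7.h343.PV

open Finset Complex

theorem tw_tw {p ν m : ℕ} (hmν : m ≤ ν) (χ : DirichletCharacter ℂ (p ^ ν))
    (θ η : DirichletCharacter ℂ (p ^ m)) : tw hmν (tw hmν χ θ) η = tw hmν χ (θ * η) := by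
  unfold tw
  rw [mul_assoc, map_mul]

theorem sub_main {δ : ℝ} (hδ : 0 < δ) {d : ℕ} (hd : 1 ≤ d) :
    ∃ c : ℝ, 0 < c ∧ ∃ ν₀ : ℕ, ∀ (p : ℕ) [Fact p.Prime], p ≠ 2 → ∀ (ν m : ℕ) (hmν : m ≤ ν), 2 * m ≤ ν →
      ν₀ ≤ ν → ((p : ℝ) ^ ν) ^ (1 / 3 + δ) ≤ (p : ℝ) ^ m →
      ∀ χ : DirichletCharacter ℂ (p ^ ν), χ.IsPrimitive →
      ∀ H : Subgroup (DirichletCharacter ℂ (p ^ m)), H.index = d →
        (∃ θ₀ ∈ H, (χ * DirichletCharacter.changeLevel (pow_dvd_pow p hmν) θ₀).Even) →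
        c * (p : ℝ) ^ m ≤ ({θ : DirichletCharacter ℂ (p ^ m) | θ ∈ H ∧
          c / Real.sqrt (Real.log ((p : ℝ) ^ ν)) ≤
            ‖(χ * DirichletCharacter.changeLevel (pow_dvd_pow p hmν) θ).LFunction (1 / 2)‖}.ncard : ℝ) := by
  have hD : 1 ≤ 2 * d := by omega
  obtain ⟨c, hc, ν₀, h⟩ := fin_D a_SEC Pool.Agent.Run7.h220.PV.t_WT
    (Pool.Agent.Run7.h136.PV.t_FM1D Pool.Agent.Run7.h950.PV.t_TAIL) (Pool.Agent.Run7.h957.PV.t_FM2D a_DUAL)
    Pool.Agent.Run7.h228.PV.t_MM a_AFE Run7.h559.PV.t_ROOT hδ hD (even_two_mul d)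
  set D := 2 * d with hDd
  have hDr : (1 : ℝ) ≤ D := by exact_mod_cast hD
  set c' : ℝ := min (c / D) (1 / (16 * Real.sqrt D)) with hc'
  have hc'0 : 0 < c' := lt_min (by positivity) (by positivity)
  refine ⟨c', hc'0, max ν₀ 1, ?_⟩
  intro p hpf hp2 ν m hmν h2m hν hPq χ hχ H hH ⟨θ₀, hθ₀, hev⟩
  have hp : p.Prime := hpf.out
  have hp1 : (1 : ℝ) < p := by exact_mod_cast hp.one_lt
  have hν0 : ν₀ ≤ ν := (le_max_left _ _).trans hν
  have hν1 : 1 ≤ ν := (le_max_right _ _).trans hν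
  have : NeZero (p ^ m) := ⟨pow_ne_zero _ hp.ne_zero⟩
  have hcyc : IsCyclic (DirichletCharacter ℂ (p ^ m)) := chars_cyc hp hp2
  classical
  have hq1 : (1 : ℝ) < (p : ℝ) ^ ν := one_lt_pow₀ hp1 (by omega)
  have hlogq : 0 < Real.log ((p : ℝ) ^ ν) := Real.log_pos hq1
  have hmν' : m < ν := by omega
  have hprim : (tw hmν χ θ₀).IsPrimitive := Pool.Agent.Y766.R3.prim_mul hp hmν' hχ θ₀
  have h1 := h p hp2 ν m hmν h2m hν0 hPq (tw hmν χ θ₀) hprim hev
  set Z : Finset (DirichletCharacter ℂ (p ^ m)) := univ.filter fun θ : DirichletCharacter ℂ (p ^ m) =>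
        1 / (16 * Real.sqrt (D * Real.log ((p : ℝ) ^ ν))) ≤
          ‖(tw hmν (tw hmν χ θ₀) (θ ^ D)).LFunction (1 / 2)‖ with hZ
  set W : Finset (DirichletCharacter ℂ (p ^ m)) := univ.filter fun θ : DirichletCharacter ℂ (p ^ m) =>
        θ ∈ H ∧ c' / Real.sqrt (Real.log ((p : ℝ) ^ ν)) ≤
          ‖(χ * DirichletCharacter.changeLevel (pow_dvd_pow p hmν) θ).LFunction (1 / 2)‖ with hW
  have hWn : {θ : DirichletCharacter ℂ (p ^ m) | θ ∈ H ∧
          c' / Real.sqrt (Real.log ((p : ℝ) ^ ν)) ≤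
            ‖(χ * DirichletCharacter.changeLevel (pow_dvd_pow p hmν) θ).LFunction (1 / 2)‖}.ncard =
      W.card := by
    rw [← Set.ncard_coe_finset]
    congr 1
    ext θ
    simp [hW]
  rw [hWn]
  -- the map `θ ↦ θ₀ θ^D`
  have hmap : ∀ θ ∈ Z, θ₀ * θ ^ D ∈ W := by
    intro θ hθ
    rw [hZ, mem_filter] at hθ
    rw [hW, mem_filter]
    refine ⟨mem_univ _, ?_, ?_⟩
    · apply H.mul_mem hθ₀
      rw [hDd, mul_comm, pow_mul, ← hH]
      exact H.pow_mem (Subgroup.pow_index_mem H θ) 2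
    · have h2 := hθ.2
      rw [tw_tw] at h2
      refine le_trans ?_ h2
      rw [Real.sqrt_mul (by positivity), ← mul_assoc]
      calc c' / Real.sqrt (Real.log ((p : ℝ) ^ ν)) ≤
            (1 / (16 * Real.sqrt D)) / Real.sqrt (Real.log ((p : ℝ) ^ ν)) := by
            have : c' ≤ 1 / (16 * Real.sqrt D) := min_le_right _ _
            gcongr
        _ = _ := by rw [div_div]
  have hcardZ : Z.card ≤ D * W.card := by
    have h2 : Z ⊆ W.biUnion fun η => univ.filter fun θ : DirichletCharacter ℂ (p ^ m) => θ ^ D = θ₀⁻¹ * η := by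
      intro θ hθ
      rw [mem_biUnion]
      refine ⟨θ₀ * θ ^ D, hmap θ hθ, ?_⟩
      rw [mem_filter]
      exact ⟨mem_univ _, by rw [inv_mul_cancel_left]⟩
    calc Z.card ≤ _ := card_le_card h2
      _ ≤ ∑ η ∈ W, (univ.filter fun θ : DirichletCharacter ℂ (p ^ m) => θ ^ D = θ₀⁻¹ * η).card :=
          card_biUnion_le
      _ ≤ ∑ η ∈ W, D := sum_le_sum fun η _ => fib_le hD _
      _ = D * W.card := by rw [sum_const, smul_eq_mul, mul_comm]
  have h3 : (Z.card : ℝ) ≤ D * W.card := by exact_mod_cast hcardZ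
  have h4 : c * (p : ℝ) ^ m ≤ D * W.card := h1.trans h3
  have h5 : c' * D ≤ c := by
    have : c' ≤ c / D := min_le_left _ _
    calc c' * D ≤ c / D * D := by gcongr
      _ = c := by field_simp
  have h6 : c' * (p : ℝ) ^ m * D ≤ W.card * D := by
    have : (0 : ℝ) < (p : ℝ) ^ m := by positivity
    calc c' * (p : ℝ) ^ m * D = (c' * D) * (p : ℝ) ^ m := by ring
      _ ≤ c * (p : ℝ) ^ m := by gcongr
      _ ≤ _ := by rw [mul_comm (W.card : ℝ)]; exact h4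
  exact le_of_mul_le_mul_right h6 (by positivity)

end Pool.Agent.Run7.h343.PV
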